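import Pool.Agent.H76Green.RoundTwo

set_option autoImplicit false

namespace Pool.Agent.H76Green

open Finset Module
open scoped Classical

theorem exists_good_of_three {α : Type*} [Fintype α] [Nonempty α] (P Q R : Finset α)
    (hP : P.card * 4 ≤ Fintype.card α)
    (hQ : Q.card * 4 ≤ Fintype.card α)
    (hR : R.card * 4 ≤ Fintype.card α) :
    ∃ x, x ∉ P ∧ x ∉ Q ∧ x ∉ R := by
  by_contra hcon
  push Not at hcon
  have hsub : (univ : Finset α) ⊆ P ∪ (Q ∪ R) := by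
    intro x _
    simp only [mem_union]
    by_cases h1 : x ∈ P
    · exact Or.inl h1
    · by_cases h2 : x ∈ Q
      · exact Or.inr (Or.inl h2)
      · exact Or.inr (Or.inr (hcon x h1 h2))
  have h1 := (card_le_card hsub).trans ((card_union_le _ _).trans
    (Nat.add_le_add_left (card_union_le _ _) _))
  rw [card_univ] at h1
  have h2 : 0 < Fintype.card α := Fintype.card_pos
  omega

theorem gen_ne_zero {G : Type*} [AddCommGroup G] [Module (ZMod 2) G] {N k : ℕ} {Z : Finset G}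
    {T : Fin N → G} (hZ : (0 : G) ∈ Z) (hk : 1 ≤ k) (hT : Gen k Z T) (i : Fin N) : T i ≠ 0 := by
  intro h0
  refine hT (Pi.single i 1) ?_ ?_ ?_
  · intro h
    have := congrFun h i
    simp at this
  · have hsub : (univ.filter fun j => (Pi.single i (1 : ZMod 2) : Fin N → ZMod 2) j ≠ 0) ⊆
        {i} := by
      intro j hj
      simp only [mem_filter, mem_univ, true_and, mem_singleton] at hj ⊢
      by_contra hji
      apply hj
      simp [hji]
    refine (card_le_card hsub).trans ?_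
    simpa using hk
  · rw [sum_single_smul, h0]
    exact hZ

/-- Colour classes of a two-colouring avoid the steps. -/
theorem color_avoid {G : Type*} [AddCommGroup G] [Module (ZMod 2) G] {N k : ℕ} {Z : Finset G}
    {T : Fin N → G} (hZ : (0 : G) ∈ Z) (hk : 1 ≤ k) (hT : Gen k Z T) {Y : Set G}
    (c : (gr Y T).Coloring (Fin 2)) {x y : G} (hx : x ∈ Y) (hy : y ∈ Y) (hc : c x = c y) :
    x + y ∉ Set.range T := by
  rintro ⟨i, hi⟩
  have hne : x ≠ y := by
    rintro rfl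
    rw [add_self_mod] at hi
    exact gen_ne_zero hZ hk hT i hi
  have hadj : (gr Y T).Adj x y := ⟨hne, hx, hy, i, hi.symm⟩
  exact c.valid hadj hc

section numeric

/-- Arithmetic for the hitting tuples. -/
theorem arith_hit {E n C L M : ℕ} (h1 : E * 2 ^ L ≤ 2 ^ ((n + 1) * C) * M)
    (hL : (n + 1) * C + 2 ≤ L) : E * 4 ≤ M := by
  have h2 : 2 ^ ((n + 1) * C) * 4 ≤ 2 ^ L := by
    calc 2 ^ ((n + 1) * C) * 4 = 2 ^ ((n + 1) * C + 2) := by rw [pow_add]; norm_num
      _ ≤ 2 ^ L := Nat.pow_le_pow_right (by norm_num) hL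
  have hpos : 0 < 2 ^ ((n + 1) * C) := by positivity
  refine le_of_mul_le_mul_left (a := 2 ^ ((n + 1) * C)) ?_ hpos
  calc 2 ^ ((n + 1) * C) * (E * 4) = E * (2 ^ ((n + 1) * C) * 4) := by ring
    _ ≤ E * 2 ^ L := Nat.mul_le_mul_left _ h2
    _ ≤ _ := h1

theorem arith_gen {E g K s q M b : ℕ} (hg : 0 < g) (h1 : E * g ≤ K * (s * M))
    (h2 : s * 2 ^ q ≤ b * g) (h3 : K * b * 4 ≤ 2 ^ q) : E * 4 ≤ M := by
  have hpos : 0 < g * 2 ^ q := by positivity
  refine le_of_mul_le_mul_left (a := g * 2 ^ q) ?_ hpos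
  calc g * 2 ^ q * (E * 4) = (E * g) * (2 ^ q * 4) := by ring
    _ ≤ (K * (s * M)) * (2 ^ q * 4) := Nat.mul_le_mul_right _ h1
    _ = K * M * 4 * (s * 2 ^ q) := by ring
    _ ≤ K * M * 4 * (b * g) := Nat.mul_le_mul_left _ h2
    _ = g * M * (K * b * 4) := by ring
    _ ≤ g * M * 2 ^ q := Nat.mul_le_mul_left _ h3
    _ = g * 2 ^ q * M := by ring

theorem arith_gen' {E g K M : ℕ} (hg : 0 < g) (h1 : E * g ≤ K * (1 * M))
    (h3 : K * 4 ≤ g) : E * 4 ≤ M := by
  refine le_of_mul_le_mul_left (a := g) ?_ hg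
  calc g * (E * 4) = (E * g) * 4 := by ring
    _ ≤ (K * (1 * M)) * 4 := Nat.mul_le_mul_right _ h1
    _ = M * (K * 4) := by ring
    _ ≤ M * g := Nat.mul_le_mul_left _ h3
    _ = g * M := by ring

theorem arith_phi {x β E g P μ A c W : ℕ} (hβ : 0 < β) (hA : 0 < A)
    (hΦ : x * β ^ E ≤ g * (P * μ ^ E)) (hmid : μ * A ≤ c * β)
    (hphi : P * c ^ E * W ≤ A ^ E) : x * W ≤ g := by
  have h1 : x * A ^ E ≤ g * (P * c ^ E) := by
    have hpos : 0 < β ^ E := by positivity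
    refine le_of_mul_le_mul_left (a := β ^ E) ?_ hpos
    calc β ^ E * (x * A ^ E) = (x * β ^ E) * A ^ E := by ring
      _ ≤ (g * (P * μ ^ E)) * A ^ E := Nat.mul_le_mul_right _ hΦ
      _ = g * P * (μ * A) ^ E := by rw [mul_pow]; ring
      _ ≤ g * P * (c * β) ^ E :=
          Nat.mul_le_mul_left _ (Nat.pow_le_pow_left hmid E)
      _ = β ^ E * (g * (P * c ^ E)) := by rw [mul_pow]; ring
  have hpos : 0 < A ^ E := by positivity
  refine le_of_mul_le_mul_left (a := A ^ E) ?_ hpos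
  calc A ^ E * (x * W) = (x * A ^ E) * W := by ring
    _ ≤ (g * (P * c ^ E)) * W := Nat.mul_le_mul_right _ h1
    _ = g * (P * c ^ E * W) := by ring
    _ ≤ g * A ^ E := Nat.mul_le_mul_left _ hphi
    _ = A ^ E * g := by ring

theorem arith_chain {E g r x P Q M w : ℕ} (hg : 0 < g)
    (h1 : E * g ^ r ≤ x * (P * (Q * (x ^ r * M)))) (hx : x * 2 ^ w ≤ g)
    (h3 : P * Q * g * 4 ≤ 2 ^ (w * (r + 1))) : E * 4 ≤ M := by
  have h2 : x ^ (r + 1) * 2 ^ (w * (r + 1)) ≤ g ^ (r + 1) := by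
    calc x ^ (r + 1) * 2 ^ (w * (r + 1)) = (x * 2 ^ w) ^ (r + 1) := by
          rw [mul_pow, ← pow_mul]
      _ ≤ g ^ (r + 1) := Nat.pow_le_pow_left hx _
  have h4 : E * 2 ^ (w * (r + 1)) ≤ P * Q * g * M := by
    have hpos : 0 < g ^ r := by positivity
    refine le_of_mul_le_mul_left (a := g ^ r) ?_ hpos
    calc g ^ r * (E * 2 ^ (w * (r + 1))) = (E * g ^ r) * 2 ^ (w * (r + 1)) := by ring
      _ ≤ (x * (P * (Q * (x ^ r * M)))) * 2 ^ (w * (r + 1)) :=
          Nat.mul_le_mul_right _ h1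
      _ = P * Q * M * (x ^ (r + 1) * 2 ^ (w * (r + 1))) := by ring
      _ ≤ P * Q * M * g ^ (r + 1) := Nat.mul_le_mul_left _ h2
      _ = g ^ r * (P * Q * g * M) := by ring
  have hpos : 0 < 2 ^ (w * (r + 1)) := by positivity
  refine le_of_mul_le_mul_left (a := 2 ^ (w * (r + 1))) ?_ hpos
  calc 2 ^ (w * (r + 1)) * (E * 4) = (E * 2 ^ (w * (r + 1))) * 4 := by ring
    _ ≤ (P * Q * g * M) * 4 := Nat.mul_le_mul_right _ h4
    _ = (P * Q * g * 4) * M := by ring
    _ ≤ 2 ^ (w * (r + 1)) * M := Nat.mul_le_mul_right _ h3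

end numeric

section main

variable {ι κ : Type} [Fintype ι] [Fintype κ]

theorem finrank_blocks : finrank (ZMod 2) (ι → κ → ZMod 2) = Fintype.card ι * Fintype.card κ := by
  rw [Module.finrank_pi_fintype]
  simp

theorem card_blocks :
    Fintype.card (ι → κ → ZMod 2) = 2 ^ (Fintype.card ι * Fintype.card κ) := by
  rw [Module.card_eq_pow_finrank (K := ZMod 2), ZMod.card, finrank_blocks]

theorem card_tuples (N : ℕ) : Fintype.card (Fin N → (ι → κ → ZMod 2)) =
    Fintype.card (ι → κ → ZMod 2) ^ N := by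
  rw [Fintype.card_fun, Fintype.card_fin]

theorem quarter_hit (C L N : ℕ) (hN : N = 2 ^ C * L)
    (hCn : C ≤ Fintype.card ι * Fintype.card κ)
    (hL : (Fintype.card ι * Fintype.card κ + 1) * C + 2 ≤ L) :
    (univ.filter fun T : Fin N → (ι → κ → ZMod 2) =>
      ¬ Hit C (Set.range T)).card * 4 ≤ Fintype.card (Fin N → (ι → κ → ZMod 2)) := by
  have h1 := card_not_hit (G := ι → κ → ZMod 2) C L N hN (by rw [finrank_blocks]; exact hCn)
  rw [finrank_blocks] at h1
  rw [card_tuples]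
  exact arith_hit h1 hL

theorem quarter_gen_one (N w : ℕ)
    (hgen1 : (N + 1) ^ (2 * w) * (Fintype.card ι * 2) * 4 ≤ 2 ^ Fintype.card κ) :
    (univ.filter fun T : Fin N → (ι → κ → ZMod 2) =>
      ¬ Gen (2 * w) (sep ι κ) T).card * 4 ≤ Fintype.card (Fin N → (ι → κ → ZMod 2)) := by
  have h1 := card_not_gen (N := N) (G := ι → κ → ZMod 2) (2 * w) (sep ι κ)
  rw [card_tuples]
  exact arith_gen Fintype.card_pos h1 card_sep_le hgen1

theorem quarter_gen_two (N r : ℕ)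
    (hgen2 : (N + 1) ^ r * 4 ≤ 2 ^ (Fintype.card ι * Fintype.card κ)) :
    (univ.filter fun T : Fin N → (ι → κ → ZMod 2) =>
      ¬ Gen r {0} T).card * 4 ≤ Fintype.card (Fin N → (ι → κ → ZMod 2)) := by
  have h1 := card_not_gen (N := N) (G := ι → κ → ZMod 2) r {0}
  rw [card_singleton] at h1
  rw [card_tuples]
  refine arith_gen' Fintype.card_pos h1 ?_
  rw [card_blocks]
  exact hgen2

theorem quarter_chain (N r w : ℕ) (X1 : Finset (ι → κ → ZMod 2))
    (hX1 : X1.card * 2 ^ w ≤ Fintype.card (ι → κ → ZMod 2))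
    (hchain : N ^ r * 2 ^ (r ^ 2) * 2 ^ (Fintype.card ι * Fintype.card κ) * 4 ≤
      2 ^ (w * (r + 1))) :
    (univ.filter fun T : Fin N → (ι → κ → ZMod 2) =>
      ∃ u ∈ X1, ∃ D : List (Fin N), D.length = r ∧ Ch T (X1 : Set _) u D).card * 4 ≤
      Fintype.card (Fin N → (ι → κ → ZMod 2)) := by
  have h1 := card_chain (N := N) X1 r
  rw [card_tuples]
  refine arith_chain Fintype.card_pos h1 hX1 ?_
  rw [card_blocks]
  exact hchain

theorem sparse_exists {N w : ℕ} (k0 : κ) (C a : ℕ) (T : Fin N → (ι → κ → ZMod 2))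
    (hT : Gen (2 * w) (sep ι κ) T)
    (ha : Fintype.card ι = 4 * a ^ 2) (ha0 : 0 < a)
    (hphi : N ^ w * (C + 1) ^ (6 * (w + 1)) * 2 ^ w ≤ (2 * a) ^ (6 * (w + 1))) :
    ∃ Φ : Fin 6 → ι → (κ → ZMod 2) → ZMod 2,
      (univ.filter fun y => LongPath (rem k0 C Φ : Set _) T w y).card * 2 ^ w ≤
        Fintype.card (ι → κ → ZMod 2) := by
  obtain ⟨Φ, hΦ⟩ := exists_phi (J := Fin 6) k0 C T hT
  refine ⟨Φ, ?_⟩
  rw [Fintype.card_fin] at hΦ
  exact arith_phi (by positivity) (by positivity) hΦ (card_mid_le (ι := ι) C a ha) hphi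

/-- Assembling the colouring. -/
theorem assemble [Nonempty ι] (k0 : κ) (C : ℕ) {N w r : ℕ} (hw : 1 ≤ w) (hr : 1 ≤ r)
    (T1 T2 : Fin N → (ι → κ → ZMod 2)) (Φ : Fin 6 → ι → (κ → ZMod 2) → ZMod 2)
    (hT1hit : Hit C (Set.range T1)) (hT1gen : Gen (2 * w) (sep ι κ) T1)
    (hT2hit : Hit C (Set.range T2)) (hT2gen : Gen r {0} T2)
    (X1 : Finset (ι → κ → ZMod 2))
    (hX1 : ∀ y, y ∉ X1 → ¬ LongPath (rem k0 C Φ : Set _) T1 w y)
    (hT2ch : ¬ ∃ u ∈ X1, ∃ D : List (Fin N), D.length = r ∧ Ch T2 (X1 : Set _) u D) :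
    ∃ f : (ι → κ → ZMod 2) → (Fin 6 × Bool) ⊕ (Fin 2 ⊕ Fin 2),
      ∀ c, ∃ S : Set (ι → κ → ZMod 2), Hit C S ∧ ∀ x y, f x = c → f y = c → x + y ∉ S := by
  have hcol1 : (gr ((rem k0 C Φ : Set _) \ (X1 : Set _)) T1).Colorable 2 := by
    refine colorable_round_one (X := (rem k0 C Φ : Set _)) (Y := (rem k0 C Φ : Set _) \ (X1 : Set _))
      (fun x hx => hx.1) hw zero_mem_sep hT1gen ?_
    intro y hy hlong
    exact hX1 y hy.2 hlong
  have hcol2 : (gr (X1 : Set _) T2).Colorable 2 := by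
    refine colorable_round_two (Z := {0}) (mem_singleton_self _) hT2gen ?_
    intro u hu D hD hch
    exact hT2ch ⟨u, hu, D, hD, hch⟩
  obtain ⟨c1⟩ := hcol1
  obtain ⟨c2⟩ := hcol2
  let f : (ι → κ → ZMod 2) → (Fin 6 × Bool) ⊕ (Fin 2 ⊕ Fin 2) := fun x =>
    if h : ∃ j, Fintype.card ι + C < 2 * wt (vec k0 (Φ j) x) then Sum.inl (h.choose, true)
    else if h : ∃ j, 2 * wt (vec k0 (Φ j) x) + C < Fintype.card ι then Sum.inl (h.choose, false)
    else if x ∈ X1 then Sum.inr (Sum.inr (c2 x)) else Sum.inr (Sum.inl (c1 x))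
  have hf_true : ∀ x j, f x = Sum.inl (j, true) →
      Fintype.card ι + C < 2 * wt (vec k0 (Φ j) x) := by
    intro x j h
    simp only [f] at h
    split_ifs at h with h1 h2 h3
    · simp only [Sum.inl.injEq, Prod.mk.injEq, and_true] at h
      rw [← h]
      exact h1.choose_spec
    · simp at h
  have hf_false : ∀ x j, f x = Sum.inl (j, false) →
      2 * wt (vec k0 (Φ j) x) + C < Fintype.card ι := by
    intro x j h
    simp only [f] at h
    split_ifs at h with h1 h2 h3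
    · simp at h
    · simp only [Sum.inl.injEq, Prod.mk.injEq, and_true] at h
      rw [← h]
      exact h2.choose_spec
  have hf_one : ∀ x e, f x = Sum.inr (Sum.inl e) →
      x ∈ (rem k0 C Φ : Set _) \ (X1 : Set _) ∧ c1 x = e := by
    intro x e h
    simp only [f] at h
    split_ifs at h with h1 h2 h3
    · simp at h
    · simp only [Sum.inr.injEq, Sum.inl.injEq] at h
      refine ⟨⟨?_, h3⟩, h⟩
      rw [mem_coe, mem_rem]
      intro j
      push Not at h1 h2
      rw [mem_mid]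
      exact ⟨h2 j, h1 j⟩
  have hf_two : ∀ x e, f x = Sum.inr (Sum.inr e) → x ∈ (X1 : Set _) ∧ c2 x = e := by
    intro x e h
    simp only [f] at h
    split_ifs at h with h1 h2 h3
    · simp only [Sum.inr.injEq] at h
      exact ⟨h3, h⟩
    · simp at h
  refine ⟨f, fun c => ?_⟩
  rcases c with ⟨j, b⟩ | c
  · refine ⟨_, hit_ball C, fun x y hx hy hxy => ?_⟩
    have h1 := wt_add_wt k0 (Φ j) x y C hxy
    cases b with
    | true =>
      have h2 := hf_true x j hx
      have h3 := hf_true y j hy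
      omega
    | false =>
      have h2 := hf_false x j hx
      have h3 := hf_false y j hy
      omega
  · rcases c with e | e
    · refine ⟨Set.range T1, hT1hit, fun x y hx hy => ?_⟩
      obtain ⟨h1, h2⟩ := hf_one x e hx
      obtain ⟨h3, h4⟩ := hf_one y e hy
      exact color_avoid zero_mem_sep (by omega) hT1gen c1 h1 h3 (h2.trans h4.symm)
    · refine ⟨Set.range T2, hT2hit, fun x y hx hy => ?_⟩
      obtain ⟨h1, h2⟩ := hf_two x e hx
      obtain ⟨h3, h4⟩ := hf_two y e hy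
      exact color_avoid (mem_singleton_self _) hr hT2gen c2 h1 h3 (h2.trans h4.symm)

/-- The combinatorial core: assuming the numerical conditions, there is a colouring with 16
colours each class of which avoids a hitting set. -/
theorem core [Nonempty ι] (k0 : κ) (C L N w r a : ℕ)
    (hN : N = 2 ^ C * L)
    (hCn : C ≤ Fintype.card ι * Fintype.card κ)
    (hL : (Fintype.card ι * Fintype.card κ + 1) * C + 2 ≤ L)
    (hw : 1 ≤ w) (hr : 1 ≤ r)
    (hgen1 : (N + 1) ^ (2 * w) * (Fintype.card ι * 2) * 4 ≤ 2 ^ Fintype.card κ)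
    (hgen2 : (N + 1) ^ r * 4 ≤ 2 ^ (Fintype.card ι * Fintype.card κ))
    (ha : Fintype.card ι = 4 * a ^ 2) (ha0 : 0 < a)
    (hphi : N ^ w * (C + 1) ^ (6 * (w + 1)) * 2 ^ w ≤ (2 * a) ^ (6 * (w + 1)))
    (hchain : N ^ r * 2 ^ (r ^ 2) * 2 ^ (Fintype.card ι * Fintype.card κ) * 4 ≤
      2 ^ (w * (r + 1))) :
    ∃ f : (ι → κ → ZMod 2) → (Fin 6 × Bool) ⊕ (Fin 2 ⊕ Fin 2),
      ∀ c, ∃ S : Set (ι → κ → ZMod 2), Hit C S ∧ ∀ x y, f x = c → f y = c → x + y ∉ S := by
  have hhit := quarter_hit (ι := ι) (κ := κ) C L N hN hCn hL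
  have hg1 := quarter_gen_one (ι := ι) (κ := κ) N w hgen1
  have hg3 := quarter_gen_two (ι := ι) (κ := κ) N r hgen2
  obtain ⟨T1, hT1hit', hT1gen', _⟩ := exists_good_of_three _ _ _ hhit hg1 hg1
  have hT1hit : Hit C (Set.range T1) := by
    by_contra h
    exact hT1hit' (mem_filter.2 ⟨mem_univ _, h⟩)
  have hT1gen : Gen (2 * w) (sep ι κ) T1 := by
    by_contra h
    exact hT1gen' (mem_filter.2 ⟨mem_univ _, h⟩)
  obtain ⟨Φ, hΦ⟩ := sparse_exists k0 C a T1 hT1gen ha ha0 hphi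
  generalize hX1 : (univ.filter fun y => LongPath (rem k0 C Φ : Set _) T1 w y) = X1 at hΦ
  have hX1' : ∀ y, y ∉ X1 → ¬ LongPath (rem k0 C Φ : Set _) T1 w y := by
    intro y hy hlong
    apply hy
    rw [← hX1, mem_filter]
    exact ⟨mem_univ _, hlong⟩
  obtain ⟨T2, hT2hit', hT2gen', hT2ch'⟩ := exists_good_of_three _ _ _ hhit hg3
    (quarter_chain N r w X1 hΦ hchain)
  have hT2hit : Hit C (Set.range T2) := by
    by_contra h
    exact hT2hit' (mem_filter.2 ⟨mem_univ _, h⟩)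
  have hT2gen : Gen r {0} T2 := by
    by_contra h
    exact hT2gen' (mem_filter.2 ⟨mem_univ _, h⟩)
  have hT2ch : ¬ ∃ u ∈ X1, ∃ D : List (Fin N), D.length = r ∧ Ch T2 (X1 : Set _) u D := by
    intro h
    exact hT2ch' (mem_filter.2 ⟨mem_univ _, h⟩)
  exact assemble k0 C hw hr T1 T2 Φ hT1hit hT1gen hT2hit hT2gen X1 hX1' hT2ch

end main

end Pool.Agent.H76Green
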