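import Pool.Agent.H76Green.Hit

set_option autoImplicit false

namespace Pool.Agent.H76Green

open Finset Module
open scoped Classical

theorem zmod2_cases (a : ZMod 2) : a = 0 ∨ a = 1 := by
  revert a; decide

theorem zmod2_ne_one {a : ZMod 2} (h : a ≠ 1) : a = 0 := by
  rcases zmod2_cases a with h' | h'
  · exact h'
  · exact absurd h' h

theorem zmod2_ne_zero {a : ZMod 2} (h : a ≠ 0) : a = 1 := by
  rcases zmod2_cases a with h' | h'
  · exact absurd h' h
  · exact h'

/-- The vectors all but at most `C` of whose blocks are the all-ones block. -/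
def nearOne {ι κ : Type*} [Fintype ι] (C : ℕ) : Set (ι → κ → ZMod 2) :=
  {z | (univ.filter fun b => z b ≠ 1).card ≤ C}

section kneser

variable {ι κ : Type*} [Fintype ι] [Fintype κ]

/-- The coordinates at which `z` differs from the all-ones vector. -/
noncomputable def defect (z : ι → κ → ZMod 2) : Finset (ι × κ) :=
  univ.filter fun p => z p.1 p.2 ≠ 1

theorem mem_defect (z : ι → κ → ZMod 2) (p : ι × κ) : p ∈ defect z ↔ z p.1 p.2 ≠ 1 := by
  simp [defect]

/-- Extension by zero. -/
noncomputable def extZero (D : Finset (ι × κ)) : (↥D → ZMod 2) →ₗ[ZMod 2] (ι → κ → ZMod 2) :=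
  LinearMap.pi fun b => LinearMap.pi fun k =>
    if h : (b, k) ∈ D then LinearMap.proj ⟨(b, k), h⟩ else 0

omit [Fintype ι] [Fintype κ] in
theorem extZero_mem (D : Finset (ι × κ)) (u : ↥D → ZMod 2) {b : ι} {k : κ} (h : (b, k) ∈ D) :
    extZero D u b k = u ⟨(b, k), h⟩ := by
  simp [extZero, h]

omit [Fintype ι] [Fintype κ] in
theorem extZero_not_mem (D : Finset (ι × κ)) (u : ↥D → ZMod 2) {b : ι} {k : κ}
    (h : (b, k) ∉ D) : extZero D u b k = 0 := by
  simp [extZero, h]

/-- The ball around the all-ones vector is hitting. -/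
theorem hit_ball (C : ℕ) : Hit C (nearOne C : Set (ι → κ → ZMod 2)) := by
  intro S hS hC
  -- choose `z ∈ S` with minimal defect
  obtain ⟨z, hz, hmin⟩ : ∃ z ∈ S, ∀ z' ∈ S, (defect z).card ≤ (defect z').card := by
    have hne : ((fun z : ι → κ → ZMod 2 => (defect z).card) '' (S : Set _)).Nonempty :=
      hS.image _
    obtain ⟨z, hz, hz'⟩ := Nat.sInf_mem hne
    refine ⟨z, hz, fun z' hz'' => ?_⟩
    have h3 : (defect z).card = sInf ((fun z : ι → κ → ZMod 2 => (defect z).card) ''
      (S : Set _)) := hz'
    rw [h3]
    exact Nat.sInf_le ⟨z', hz'', rfl⟩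
  have hle : (defect z).card ≤ C := by
    by_contra hlt
    push Not at hlt
    set ψ : (↥(defect z) → ZMod 2) →ₗ[ZMod 2] ((ι → κ → ZMod 2) ⧸ S.direction) :=
      S.direction.mkQ.comp (extZero (defect z)) with hψ
    have h1 : finrank (ZMod 2) ((ι → κ → ZMod 2) ⧸ S.direction) <
        finrank (ZMod 2) (↥(defect z) → ZMod 2) := by
      have h2 := Submodule.finrank_quotient_add_finrank S.direction
      rw [Module.finrank_fintype_fun_eq_card, Fintype.card_coe]
      omega
    have h2 := LinearMap.ker_ne_bot_of_finrank_lt (f := ψ) h1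
    obtain ⟨u, hu, hu0⟩ := Submodule.exists_mem_ne_zero_of_ne_bot h2
    have hV : extZero (defect z) u ∈ S.direction := by
      rw [LinearMap.mem_ker, hψ, LinearMap.comp_apply, Submodule.mkQ_apply,
        Submodule.Quotient.mk_eq_zero] at hu
      exact hu
    obtain ⟨p, hp⟩ : ∃ p, u p ≠ 0 := by
      by_contra hcon
      push Not at hcon
      exact hu0 (funext hcon)
    have hmem : extZero (defect z) u + z ∈ S := by
      have := AffineSubspace.vadd_mem_of_mem_direction hV hz
      simpa using this
    have hlt2 : (defect (extZero (defect z) u + z)).card < (defect z).card := by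
      apply Finset.card_lt_card
      refine ⟨?_, ?_⟩
      · intro q hq
        by_contra hqz
        have hz1 : z q.1 q.2 = 1 := by
          by_contra hne
          exact hqz ((mem_defect _ _).2 hne)
        have h0 : extZero (defect z) u q.1 q.2 = 0 := extZero_not_mem _ _ hqz
        rw [mem_defect, Pi.add_apply, Pi.add_apply, h0, hz1] at hq
        exact hq (by decide)
      · intro hsub
        have hp1 := hsub p.2
        have hp2 : z p.1.1 p.1.2 = 0 := by
          have := p.2
          rw [mem_defect] at this
          exact zmod2_ne_one this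
        have hp3 : extZero (defect z) u p.1.1 p.1.2 = 1 := by
          rw [extZero_mem _ _ p.2]
          exact zmod2_ne_zero hp
        rw [mem_defect, Pi.add_apply, Pi.add_apply, hp3, hp2] at hp1
        exact hp1 (by decide)
    have := hmin _ hmem
    omega
  refine ⟨z, ?_, hz⟩
  unfold nearOne
  refine le_trans ?_ hle
  have hsub : ∀ b, z b ≠ 1 → b ∈ (defect z).image Prod.fst := by
    intro b hb
    obtain ⟨k, hk⟩ : ∃ k, z b k ≠ 1 := by
      by_contra hcon
      push Not at hcon
      exact hb (funext hcon)
    rw [mem_image]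
    exact ⟨(b, k), (mem_defect _ _).2 hk, rfl⟩
  refine le_trans (card_le_card ?_) (card_image_le (s := defect z) (f := Prod.fst))
  intro b hb
  apply hsub
  simpa using hb

end kneser

section gen

variable {G : Type*} [AddCommGroup G] [Module (ZMod 2) G] {N : ℕ}

/-- No nontrivial combination with at most `k` terms of the `T j` lies in `Z`. -/
def Gen (k : ℕ) (Z : Finset G) (T : Fin N → G) : Prop :=
  ∀ a : Fin N → ZMod 2, a ≠ 0 → (univ.filter fun j => a j ≠ 0).card ≤ k →
    ∑ j, a j • T j ∉ Z

theorem card_small_support (N k : ℕ) :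
    (univ.filter fun a : Fin N → ZMod 2 => (univ.filter fun j => a j ≠ 0).card ≤ k).card ≤
      (N + 1) ^ k := by
  let F : (Fin k → Option (Fin N)) → (Fin N → ZMod 2) :=
    fun f j => if ∃ i, f i = some j then 1 else 0
  have hsub : (univ.filter fun a : Fin N → ZMod 2 => (univ.filter fun j => a j ≠ 0).card ≤ k) ⊆
      univ.image F := by
    intro a ha
    simp only [mem_filter, mem_univ, true_and] at ha
    set s := univ.filter fun j => a j ≠ 0 with hs
    let e := s.equivFin
    rw [mem_image]
    refine ⟨fun i => if h : i.1 < s.card then some (e.symm ⟨i.1, h⟩).1 else none, mem_univ _, ?_⟩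
    funext j
    simp only [F]
    split_ifs with h
    · obtain ⟨i, hi⟩ := h
      split_ifs at hi with h2
      · simp only [Option.some.injEq] at hi
        have h3 := (e.symm ⟨i.1, h2⟩).2
        rw [hi, hs] at h3
        simp only [mem_filter, mem_univ, true_and] at h3
        exact (zmod2_ne_zero h3).symm
    · push Not at h
      by_contra hne
      have hj : j ∈ s := by
        rw [hs]
        simp only [mem_filter, mem_univ, true_and]
        exact fun h0 => hne h0.symm
      have h4 := (e ⟨j, hj⟩).2
      have h5 := h ⟨(e ⟨j, hj⟩).1, lt_of_lt_of_le h4 ha⟩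
      simp at h5
  refine (card_le_card hsub).trans (card_image_le.trans ?_)
  simp

variable [Fintype G]

/-- The combination map `T ↦ ∑ a j • T j`. -/
def comb (a : Fin N → ZMod 2) : (Fin N → G) →+ G where
  toFun T := ∑ j, a j • T j
  map_zero' := by simp
  map_add' := by intro S T; simp [smul_add, sum_add_distrib]

omit [Fintype G] in
theorem comb_surjective {a : Fin N → ZMod 2} (ha : a ≠ 0) :
    Function.Surjective (comb (G := G) a) := by
  obtain ⟨j, hj⟩ : ∃ j, a j ≠ 0 := by
    by_contra hcon
    push Not at hcon
    exact ha (funext hcon)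
  intro g
  refine ⟨Pi.single j g, ?_⟩
  show ∑ i, a i • (Pi.single j g : Fin N → G) i = g
  rw [Finset.sum_eq_single j]
  · simp [zmod2_ne_zero hj]
  · intro i _ hij
    simp [hij]
  · simp

/-- Few tuples are not generic. -/
theorem card_not_gen (k : ℕ) (Z : Finset G) :
    (univ.filter fun T : Fin N → G => ¬ Gen k Z T).card * Fintype.card G ≤
      (N + 1) ^ k * (Z.card * (Fintype.card G) ^ N) := by
  set A := univ.filter fun a : Fin N → ZMod 2 =>
    (univ.filter fun j => a j ≠ 0).card ≤ k ∧ a ≠ 0 with hA
  have hAcard : A.card ≤ (N + 1) ^ k := by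
    refine le_trans (card_le_card ?_) (card_small_support N k)
    intro a ha
    simp only [hA, mem_filter, mem_univ, true_and] at ha ⊢
    exact ha.1
  have hsub : (univ.filter fun T : Fin N → G => ¬ Gen k Z T) ⊆
      A.biUnion fun a => univ.filter fun T : Fin N → G => comb a T ∈ Z := by
    intro T hT
    simp only [mem_filter, mem_univ, true_and] at hT
    unfold Gen at hT
    push Not at hT
    obtain ⟨a, ha0, hak, haZ⟩ := hT
    rw [mem_biUnion]
    refine ⟨a, ?_, ?_⟩
    · simp only [hA, mem_filter, mem_univ, true_and]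
      exact ⟨hak, ha0⟩
    · simp only [mem_filter, mem_univ, true_and]
      exact haZ
  calc _ ≤ (∑ a ∈ A, (univ.filter fun T : Fin N → G => comb a T ∈ Z).card) * Fintype.card G :=
        Nat.mul_le_mul_right _ ((card_le_card hsub).trans card_biUnion_le)
    _ = ∑ a ∈ A, (univ.filter fun T : Fin N → G => comb a T ∈ Z).card * Fintype.card G := by
        rw [sum_mul]
    _ = ∑ a ∈ A, Z.card * (Fintype.card G) ^ N := by
        refine sum_congr rfl fun a ha => ?_
        simp only [hA, mem_filter, mem_univ, true_and] at ha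
        rw [card_preimage (comb a) (comb_surjective ha.2) Z]
        simp
    _ = A.card * (Z.card * (Fintype.card G) ^ N) := by simp
    _ ≤ _ := Nat.mul_le_mul_right _ hAcard

end gen

end Pool.Agent.H76Green
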