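import Pool.Agent.H76Green.Odd

set_option autoImplicit false

namespace Pool.Agent.H76Green

open Finset Module
open scoped Classical

section graph

variable {G : Type*} [AddCommGroup G] [Module (ZMod 2) G] {N : ℕ}

theorem add_self_mod (x : G) : x + x = 0 := by
  have h : ((1 : ZMod 2) + 1) • x = 0 := by
    rw [show (1 : ZMod 2) + 1 = 0 by decide, zero_smul]
  rwa [add_smul, one_smul] at h

theorem add_cancel_mod {x y z : G} (h : x + y = z) : y = x + z := by
  rw [← h, ← add_assoc, add_self_mod, zero_add]

/-- The graph on `Y` with edges given by the steps `T i`. -/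
def gr (Y : Set G) (T : Fin N → G) : SimpleGraph G where
  Adj x y := x ≠ y ∧ x ∈ Y ∧ y ∈ Y ∧ ∃ i, x + y = T i
  symm := ⟨fun x y h => ⟨h.1.symm, h.2.2.1, h.2.1, by
    obtain ⟨i, hi⟩ := h.2.2.2
    exact ⟨i, by rw [add_comm]; exact hi⟩⟩⟩
  loopless := ⟨fun x h => h.1 rfl⟩

theorem sum_single_smul (T : Fin N → G) (i : Fin N) :
    ∑ j, (Pi.single i (1 : ZMod 2) : Fin N → ZMod 2) j • T j = T i := by
  rw [Finset.sum_eq_single i]
  · simp
  · intro j _ hj
    simp [hj]
  · simp

theorem walk_vector {Y : Set G} {T : Fin N → G} {u v : G} (p : (gr Y T).Walk u v) :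
    ∃ a : Fin N → ZMod 2, u + v = ∑ j, a j • T j ∧
      (univ.filter fun j => a j ≠ 0).card ≤ p.length ∧ ∑ j, a j = (p.length : ZMod 2) := by
  induction p with
  | nil => exact ⟨0, by simp [add_self_mod], by simp, by simp⟩
  | @cons u v' v h p ih =>
    obtain ⟨a, ha1, ha2, ha3⟩ := ih
    obtain ⟨i, hi⟩ := h.2.2.2
    refine ⟨Pi.single i 1 + a, ?_, ?_, ?_⟩
    · simp only [Pi.add_apply, add_smul, sum_add_distrib]
      rw [sum_single_smul, ← ha1, ← hi]
      calc u + v = u + (v' + v') + v := by rw [add_self_mod, add_zero]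
        _ = u + v' + (v' + v) := by abel
    · rw [SimpleGraph.Walk.length_cons]
      have hsub : (univ.filter fun j => (Pi.single i (1 : ZMod 2) + a : Fin N → ZMod 2) j ≠ 0) ⊆
          insert i (univ.filter fun j => a j ≠ 0) := by
        intro j hj
        simp only [mem_filter, mem_univ, true_and, mem_insert] at hj ⊢
        by_cases hji : j = i
        · left; exact hji
        · right
          intro h0
          apply hj
          simp [hji, h0]
      refine (card_le_card hsub).trans ((card_insert_le _ _).trans ?_)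
      omega
    · rw [SimpleGraph.Walk.length_cons]
      simp only [Pi.add_apply, sum_add_distrib]
      rw [ha3, Finset.sum_pi_single']
      simp [add_comm]

theorem no_short_odd {k : ℕ} {Z : Finset G} {Y : Set G} {T : Fin N → G} (hZ : (0 : G) ∈ Z)
    (hT : Gen k Z T) {u : G} (p : (gr Y T).Walk u u) (hp : p.length ≤ k) : Even p.length := by
  by_contra hodd
  rw [Nat.not_even_iff_odd] at hodd
  obtain ⟨a, ha1, ha2, ha3⟩ := walk_vector p
  have ha0 : a ≠ 0 := by
    rintro rfl
    simp only [Pi.zero_apply, sum_const_zero] at ha3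
    have h1 : (p.length : ZMod 2) = 1 := by
      obtain ⟨m, hm⟩ := hodd
      rw [hm]
      push_cast
      rw [show (2 : ZMod 2) = 0 by decide]
      ring
    rw [h1] at ha3
    exact absurd ha3 (by decide)
  refine hT a ha0 (ha2.trans hp) ?_
  rw [← ha1, add_self_mod]
  exact hZ

/-- The points of the path with start `y` and steps `i`. -/
noncomputable def pt {w : ℕ} (T : Fin N → G) (i : Fin w → Fin N) (y : G) (k : ℕ) : G :=
  y + ∑ l : Fin w, if (l : ℕ) < k then T (i l) else 0

omit [Module (ZMod 2) G] in
theorem pt_zero {w : ℕ} (T : Fin N → G) (i : Fin w → Fin N) (y : G) : pt T i y 0 = y := by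
  simp [pt]

omit [Module (ZMod 2) G] in
theorem pt_succ {w : ℕ} (T : Fin N → G) (i : Fin w → Fin N) (y : G) (k : ℕ) (hk : k < w) :
    pt T i y (k + 1) = pt T i y k + T (i ⟨k, hk⟩) := by
  unfold pt
  rw [add_assoc]
  congr 1
  have h1 : ∀ l : Fin w, (if (l : ℕ) < k + 1 then T (i l) else 0) =
      (if (l : ℕ) < k then T (i l) else 0) + (if l = ⟨k, hk⟩ then T (i l) else 0) := by
    intro l
    by_cases h2 : l = ⟨k, hk⟩
    · subst h2
      simp
    · have h3 : (l : ℕ) ≠ k := fun h => h2 (Fin.ext h)
      simp only [h2, if_false, add_zero]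
      by_cases h4 : (l : ℕ) < k
      · rw [if_pos h4, if_pos (by omega)]
      · rw [if_neg h4, if_neg (by omega)]
  rw [sum_congr rfl fun l _ => h1 l, sum_add_distrib]
  simp

/-- Long paths: `y` is the start of a path with `w` steps in `X`. -/
def LongPath (X : Set G) (T : Fin N → G) (w : ℕ) (y : G) : Prop :=
  ∃ i : Fin w → Fin N, (∀ k l : Fin (w + 1), k ≠ l → pt T i y k ≠ pt T i y l) ∧
    ∀ k : Fin (w + 1), pt T i y k ∈ X

theorem longPath_of_path {X Y : Set G} {T : Fin N → G} (hYX : Y ⊆ X) {w : ℕ} {u v : G}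
    (p : (gr Y T).Walk u v) (hp : p.IsPath) (hw : w ≤ p.length) (hu : u ∈ Y) :
    LongPath X T w u := by
  have hadj : ∀ k : Fin w, ∃ i, p.getVert k + p.getVert (k + 1) = T i := fun k =>
    (p.adj_getVert_succ (lt_of_lt_of_le k.2 hw)).2.2.2
  choose i hi using hadj
  have hpt : ∀ k : ℕ, k ≤ w → pt T i u k = p.getVert k := by
    intro k
    induction k with
    | zero => intro _; rw [pt_zero, SimpleGraph.Walk.getVert_zero]
    | succ k ih =>
      intro hk
      rw [pt_succ T i u k (by omega), ih (by omega)]
      exact (add_cancel_mod (hi ⟨k, by omega⟩)).symm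
  refine ⟨i, ?_, ?_⟩
  · intro k l hkl h
    rw [hpt k (by omega), hpt l (by omega)] at h
    have := hp.getVert_injOn (by simp; omega) (by simp; omega) h
    exact hkl (Fin.ext this)
  · intro k
    rw [hpt k (by omega)]
    apply hYX
    by_cases hk : (k : ℕ) = 0
    · rw [hk, SimpleGraph.Walk.getVert_zero]; exact hu
    · have h1 := p.adj_getVert_succ (i := (k : ℕ) - 1) (by omega)
      have h2 : (k : ℕ) - 1 + 1 = k := by omega
      rw [h2] at h1
      exact h1.2.2.1

/-- Two-colourability in the first round. -/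
theorem colorable_round_one {X Y : Set G} {T : Fin N → G} {Z : Finset G} (hYX : Y ⊆ X) {w : ℕ}
    (hw : 1 ≤ w) (hZ : (0 : G) ∈ Z) (hT : Gen (2 * w) Z T) (hY : ∀ y ∈ Y, ¬ LongPath X T w y) :
    (gr Y T).Colorable 2 := by
  rw [SimpleGraph.two_colorable_iff_forall_loop_even]
  intro u
  have hdist : ∀ v, (gr Y T).Reachable v u → (gr Y T).dist v u < w := by
    intro v hv
    by_contra hlt
    push Not at hlt
    obtain ⟨p, hp1, hp2⟩ := hv.exists_path_of_dist
    have hpos : 0 < p.length := by omega
    have hvY : v ∈ Y := by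
      have h1 := p.adj_getVert_succ (i := 0) hpos
      rw [SimpleGraph.Walk.getVert_zero] at h1
      exact h1.2.1
    exact hY v hvY (longPath_of_path hYX p hp1 (by omega) hvY)
  have key : ∀ v (p : (gr Y T).Walk v u), Even (p.length + (gr Y T).dist v u) := by
    intro v p
    induction p with
    | nil => simp
    | @cons v v' u h p ih =>
      have ih' := ih hdist
      have hr' : (gr Y T).Reachable v' u := p.reachable
      have hr : (gr Y T).Reachable v u := (SimpleGraph.Walk.cons h p).reachable
      obtain ⟨q, hq⟩ := hr.exists_walk_length_eq_dist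
      obtain ⟨q', hq'⟩ := hr'.exists_walk_length_eq_dist
      have h1 := hdist v hr
      have h2 := hdist v' hr'
      have h3 := no_short_odd hZ hT (q.reverse.append (SimpleGraph.Walk.cons h q')) (by
        rw [SimpleGraph.Walk.length_append, SimpleGraph.Walk.length_reverse,
          SimpleGraph.Walk.length_cons]
        omega)
      rw [SimpleGraph.Walk.length_append, SimpleGraph.Walk.length_reverse,
        SimpleGraph.Walk.length_cons, hq, hq'] at h3
      rw [SimpleGraph.Walk.length_cons]
      rw [Nat.even_iff] at *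
      omega
  intro p
  have := key u p
  rwa [SimpleGraph.dist_self, add_zero] at this

end graph

end Pool.Agent.H76Green
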