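import Mathlib

set_option autoImplicit false

namespace Pool.Agent.H76Green

open Finset Module
open scoped Classical

/-- Counting points of a preimage under a surjective homomorphism of finite groups. -/
theorem card_preimage {A Y : Type*} [AddGroup A] [AddGroup Y] [Fintype A] [Fintype Y]
    (f : A →+ Y) (hf : Function.Surjective f) (P : Finset Y) :
    (univ.filter fun a => f a ∈ P).card * Fintype.card Y = P.card * Fintype.card A := by
  have key : ∀ P : Finset Y, (univ.filter fun a => f a ∈ P).card =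
      P.card * (univ.filter fun a => f a = 0).card := by
    intro P
    rw [Finset.card_eq_sum_card_fiberwise (f := f) (t := P) (fun a ha => by simpa using ha)]
    rw [Finset.sum_const_nat (m := (univ.filter fun a => f a = 0).card)]
    intro y hy
    have h1 : ((univ.filter fun a => f a ∈ P).filter fun a => f a = y) =
        univ.filter fun a => f a = y := by
      ext a
      simp only [mem_filter, mem_univ, true_and]
      constructor
      · exact fun h => h.2
      · exact fun h => ⟨h ▸ hy, h⟩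
    rw [h1]
    exact AddMonoidHom.card_fiber_eq_of_mem_range f (hf y) (hf 0)
  have h1 := key P
  have h2 := key univ
  simp only [mem_univ, filter_true, card_univ] at h2
  rw [h1, h2]
  ring

section hit

variable {G : Type*} [AddCommGroup G] [Module (ZMod 2) G]

/-- `T` meets every nonempty affine subspace of codimension at most `C`. -/
def Hit (C : ℕ) (T : Set G) : Prop :=
  ∀ S : AffineSubspace (ZMod 2) G, (S : Set G).Nonempty →
    finrank (ZMod 2) G ≤ finrank (ZMod 2) S.direction + C → ∃ t ∈ T, t ∈ S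

/-- Every affine subspace of codimension at most `C` contains a nonempty fibre of a linear map to
`(ZMod 2)^C`. -/
theorem exists_fibre [Module.Finite (ZMod 2) G] (C : ℕ) (S : AffineSubspace (ZMod 2) G)
    (hS : (S : Set G).Nonempty)
    (hC : finrank (ZMod 2) G ≤ finrank (ZMod 2) S.direction + C) :
    ∃ (g : G →ₗ[ZMod 2] (Fin C → ZMod 2)) (x : G), ∀ z, g z = g x → z ∈ S := by
  obtain ⟨x, hx⟩ := hS
  have h1 : finrank (ZMod 2) (G ⧸ S.direction) ≤ finrank (ZMod 2) (Fin C → ZMod 2) := by
    have h2 := Submodule.finrank_quotient_add_finrank S.direction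
    rw [Module.finrank_fin_fun]
    omega
  obtain ⟨φ, hφ⟩ := finrank_le_iff_exists_linearMap.mp h1
  refine ⟨φ.comp S.direction.mkQ, x, fun z hz => ?_⟩
  have h3 : S.direction.mkQ z = S.direction.mkQ x := hφ (by simpa using hz)
  have h4 : z - x ∈ S.direction := by
    rwa [Submodule.mkQ_apply, Submodule.mkQ_apply, Submodule.Quotient.eq] at h3
  have h5 := AffineSubspace.vadd_mem_of_mem_direction h4 hx
  simpa using h5

theorem two_mul_pow_le (m : ℕ) : 2 * m ^ (m + 1) ≤ (m + 1) ^ (m + 1) := by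
  have h : ∀ k : ℕ, m ^ (k + 1) + (k + 1) * m ^ k ≤ (m + 1) ^ (k + 1) := by
    intro k
    induction k with
    | zero => simp
    | succ k ih =>
      calc m ^ (k + 1 + 1) + (k + 1 + 1) * m ^ (k + 1)
          ≤ (m ^ (k + 1) + (k + 1) * m ^ k) * (m + 1) := by
            ring_nf
            have : 0 ≤ m ^ k := Nat.zero_le _
            nlinarith [Nat.zero_le (m ^ k), Nat.zero_le (k * m ^ k)]
        _ ≤ (m + 1) ^ (k + 1) * (m + 1) := Nat.mul_le_mul_right _ ih
        _ = (m + 1) ^ (k + 1 + 1) := by ring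
  have h1 := h m
  calc 2 * m ^ (m + 1) = m ^ (m + 1) + m * m ^ m := by ring
    _ ≤ m ^ (m + 1) + (m + 1) * m ^ m := by
        gcongr
        omega
    _ ≤ _ := h1

/-- `(2^n - 2^(n-C))^(2^C L) 2^L ≤ 2^(n 2^C L)`. -/
theorem miss_pow_le {n C L : ℕ} (h : C ≤ n) :
    (2 ^ n - 2 ^ (n - C)) ^ (2 ^ C * L) * 2 ^ L ≤ (2 ^ n) ^ (2 ^ C * L) := by
  obtain ⟨d, rfl⟩ := Nat.exists_eq_add_of_le h
  have h1 : 2 ^ (C + d) - 2 ^ (C + d - C) = 2 ^ d * (2 ^ C - 1) := by
    rw [Nat.add_sub_cancel_left, Nat.mul_sub, pow_add]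
    ring_nf
  obtain ⟨m, hm⟩ : ∃ m, 2 ^ C = m + 1 := ⟨2 ^ C - 1, by have := Nat.one_le_two_pow (n := C); omega⟩
  have h2 : 2 * m ^ (2 ^ C) ≤ (2 ^ C) ^ (2 ^ C) := by
    rw [hm]; exact two_mul_pow_le m
  rw [h1, show 2 ^ C - 1 = m by omega]
  calc (2 ^ d * m) ^ (2 ^ C * L) * 2 ^ L
      = (2 ^ d) ^ (2 ^ C * L) * (2 * m ^ (2 ^ C)) ^ L := by
        rw [mul_pow, mul_pow 2, pow_mul m]; ring
    _ ≤ (2 ^ d) ^ (2 ^ C * L) * ((2 ^ C) ^ (2 ^ C)) ^ L :=
        Nat.mul_le_mul_left _ (Nat.pow_le_pow_left h2 L)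
    _ = (2 ^ (C + d)) ^ (2 ^ C * L) := by
        rw [← pow_mul (2 ^ C), ← mul_pow, ← pow_add, Nat.add_comm]

variable [Fintype G]

theorem card_fibre_ge (C : ℕ) (g : G →ₗ[ZMod 2] (Fin C → ZMod 2)) (x : G) :
    2 ^ (finrank (ZMod 2) G - C) ≤ (univ.filter fun z => g z = g x).card := by
  have h1 : (univ.filter fun z => g z = g x).card = (univ.filter fun z => g z = 0).card :=
    AddMonoidHom.card_fiber_eq_of_mem_range g ⟨x, rfl⟩ ⟨0, map_zero g⟩
  rw [h1]
  have h2 : (univ.filter fun z => g z = 0).card = Fintype.card (LinearMap.ker g) := by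
    rw [Fintype.card_subtype]
    congr 1
    ext z
    simp
  rw [h2, Module.card_eq_pow_finrank (K := ZMod 2), ZMod.card]
  apply Nat.pow_le_pow_right (by norm_num)
  have h3 := LinearMap.finrank_range_add_finrank_ker g
  have h4 : finrank (ZMod 2) (LinearMap.range g) ≤ C := by
    have := Submodule.finrank_le (LinearMap.range g)
    rwa [Module.finrank_fin_fun] at this
  omega

/-- Few tuples fail to be hitting. -/
theorem card_not_hit (C L N : ℕ) (hN : N = 2 ^ C * L) (hC : C ≤ finrank (ZMod 2) G) :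
    (univ.filter fun T : Fin N → G => ¬ Hit C (Set.range T)).card * 2 ^ L ≤
      2 ^ ((finrank (ZMod 2) G + 1) * C) * (Fintype.card G) ^ N := by
  set n := finrank (ZMod 2) G with hn
  have hG : Fintype.card G = 2 ^ n := by
    rw [Module.card_eq_pow_finrank (K := ZMod 2), ZMod.card]
  -- the family of tuples missing the fibre of `g` over `b`
  let miss : (G →ₗ[ZMod 2] (Fin C → ZMod 2)) × (Fin C → ZMod 2) → Finset (Fin N → G) :=
    fun p => if (∃ x, p.1 x = p.2) then
      (Fintype.piFinset fun _ => univ.filter fun z => p.1 z ≠ p.2) else ∅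
  have : Fintype (G →ₗ[ZMod 2] (Fin C → ZMod 2)) :=
    Fintype.ofInjective (fun f => (f : G → (Fin C → ZMod 2))) DFunLike.coe_injective
  have hsub : (univ.filter fun T : Fin N → G => ¬ Hit C (Set.range T)) ⊆
      (univ : Finset ((G →ₗ[ZMod 2] (Fin C → ZMod 2)) × (Fin C → ZMod 2))).biUnion miss := by
    intro T hT
    simp only [mem_filter, mem_univ, true_and] at hT
    unfold Hit at hT
    push Not at hT
    obtain ⟨S, hS, hSC, hmiss⟩ := hT
    obtain ⟨g, x, hgx⟩ := exists_fibre C S hS hSC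
    rw [mem_biUnion]
    refine ⟨(g, g x), mem_univ _, ?_⟩
    have : ∃ y, g y = g x := ⟨x, rfl⟩
    simp only [miss, this, if_true, Fintype.mem_piFinset, mem_filter, mem_univ, true_and]
    intro i hi
    exact hmiss (T i) ⟨i, rfl⟩ (hgx _ hi)
  have hcard : ∀ p, (miss p).card ≤ (2 ^ n - 2 ^ (n - C)) ^ N := by
    rintro ⟨g, b⟩
    simp only [miss]
    split_ifs with hx
    · obtain ⟨x, rfl⟩ := hx
      rw [Fintype.card_piFinset]
      simp only [prod_const, card_univ, Fintype.card_fin]
      apply Nat.pow_le_pow_left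
      have h1 := card_fibre_ge C g x
      have h2 : (univ.filter fun z => g z = g x).card + (univ.filter fun z => g z ≠ g x).card =
          Fintype.card G := by
        rw [Finset.card_filter_add_card_filter_not, card_univ]
      rw [hG] at h2
      rw [← hn] at h1
      omega
    · simp
  have hlin : Fintype.card (G →ₗ[ZMod 2] (Fin C → ZMod 2)) = 2 ^ (n * C) := by
    rw [Module.card_eq_pow_finrank (K := ZMod 2), ZMod.card, Module.finrank_linearMap,
      Module.finrank_fin_fun]
  have h1 : (univ.filter fun T : Fin N → G => ¬ Hit C (Set.range T)).card ≤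
      2 ^ ((n + 1) * C) * (2 ^ n - 2 ^ (n - C)) ^ N := by
    refine (card_le_card hsub).trans (card_biUnion_le.trans ?_)
    refine (sum_le_card_nsmul _ _ _ fun p _ => hcard p).trans ?_
    rw [smul_eq_mul, card_univ, Fintype.card_prod, hlin]
    simp only [Fintype.card_pi, ZMod.card, prod_const, card_univ, Fintype.card_fin]
    rw [← pow_add]
    apply Nat.le_of_eq
    congr 2
    ring
  calc _ ≤ 2 ^ ((n + 1) * C) * (2 ^ n - 2 ^ (n - C)) ^ N * 2 ^ L := Nat.mul_le_mul_right _ h1
    _ = 2 ^ ((n + 1) * C) * ((2 ^ n - 2 ^ (n - C)) ^ N * 2 ^ L) := by ring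
    _ ≤ 2 ^ ((n + 1) * C) * (2 ^ n) ^ N := by
        apply Nat.mul_le_mul_left
        rw [hN]
        exact miss_pow_le hC
    _ = _ := by rw [hG]

end hit

end Pool.Agent.H76Green
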