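import Pool.Agent.H76Green.Final

set_option autoImplicit false

namespace Pool.Agent.H76Green

open Finset Module
open scoped Classical

theorem lin_le_pow {m : ℕ} (hm : 10 ≤ m) : 92 * m + 11 ≤ 2 ^ m := by
  induction m, hm using Nat.le_induction with
  | base => norm_num
  | succ m hm ih =>
    rw [pow_succ]
    omega

/-- The colouring with explicit parameters. -/
theorem exists_coloring (C : ℕ) : ∃ m : ℕ, C < 2 ^ (4 * m) * 2 ^ (6 * m) ∧
    ∃ f : (Fin (2 ^ (4 * m)) → Fin (2 ^ (6 * m)) → ZMod 2) → (Fin 6 × Bool) ⊕ (Fin 2 ⊕ Fin 2),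
      ∀ c, ∃ S : Set (Fin (2 ^ (4 * m)) → Fin (2 ^ (6 * m)) → ZMod 2),
        Hit C S ∧ ∀ x y, f x = c → f y = c → x + y ∉ S := by
  obtain ⟨m, hm10, hmC, hC6, hCC⟩ : ∃ m : ℕ, 10 ≤ m ∧ C ≤ m ∧ (C + 1) ^ 6 ≤ 2 ^ (m - 1) ∧
      2 ^ C * (2 * C + 2) ≤ 2 ^ m := by
    refine ⟨10 + C + (C + 1) ^ 6, by omega, by omega, ?_, ?_⟩
    · calc (C + 1) ^ 6 ≤ 2 ^ ((C + 1) ^ 6) := Nat.lt_two_pow_self.le
        _ ≤ 2 ^ (10 + C + (C + 1) ^ 6 - 1) := Nat.pow_le_pow_right (by norm_num) (by omega)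
    · have h1 : C + 1 ≤ (C + 1) ^ 6 := Nat.le_self_pow (by norm_num) _
      have h2 : (C + 1) ^ 6 ≤ 2 ^ ((C + 1) ^ 6) := Nat.lt_two_pow_self.le
      calc 2 ^ C * (2 * C + 2) = 2 ^ C * (2 * (C + 1)) := by ring
        _ ≤ 2 ^ C * (2 ^ 10 * 2 ^ ((C + 1) ^ 6)) := by
            apply Nat.mul_le_mul_left
            apply Nat.mul_le_mul (by norm_num) (h1.trans h2)
        _ = 2 ^ (10 + C + (C + 1) ^ 6) := by ring
  have hlin := lin_le_pow hm10
  set r := 2 ^ (5 * m) with hr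
  have hr1 : 1 ≤ r := Nat.one_le_two_pow
  have hmr : 2 ^ m ≤ r := Nat.pow_le_pow_right (by norm_num) (by omega)
  have h10 : 2 ^ (4 * m) * 2 ^ (6 * m) = r * r := by rw [hr]; ring
  have h6 : 2 ^ (6 * m) = r * 2 ^ m := by rw [hr]; ring
  have hN1 : 2 ^ (11 * m) + 1 ≤ 2 ^ (11 * m + 1) := by
    rw [pow_succ]
    have : 1 ≤ 2 ^ (11 * m) := Nat.one_le_two_pow
    omega
  have hCr : C + 1 ≤ r := by
    have : m < 2 ^ m := Nat.lt_two_pow_self
    omega
  refine ⟨m, ?_, ?_⟩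
  · rw [h10]
    nlinarith
  have hk0 : 0 < 2 ^ (6 * m) := by positivity
  have : Nonempty (Fin (2 ^ (4 * m))) := ⟨⟨0, by positivity⟩⟩
  refine core (ι := Fin (2 ^ (4 * m))) (κ := Fin (2 ^ (6 * m))) ⟨0, hk0⟩ C (2 ^ (11 * m - C))
    (2 ^ (11 * m)) (4 * r) r (2 ^ (2 * m - 1)) ?_ ?_ ?_ ?_ hr1 ?_ ?_ ?_ ?_ ?_ ?_
  · rw [← pow_add]
    congr 1
    omega
  · rw [Fintype.card_fin, Fintype.card_fin, h10]
    nlinarith
  · rw [Fintype.card_fin, Fintype.card_fin, h10]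
    have hpos : 0 < 2 ^ C := by positivity
    refine le_of_mul_le_mul_left (a := 2 ^ C) ?_ hpos
    calc 2 ^ C * ((r * r + 1) * C + 2) ≤ 2 ^ C * (r * r * (2 * C + 2)) := by
          apply Nat.mul_le_mul_left
          nlinarith
      _ = r * r * (2 ^ C * (2 * C + 2)) := by ring
      _ ≤ r * r * 2 ^ m := Nat.mul_le_mul_left _ hCC
      _ = 2 ^ (11 * m) := by rw [hr]; ring
      _ = 2 ^ C * 2 ^ (11 * m - C) := by
          rw [← pow_add]
          congr 1
          omega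
  · omega
  · rw [Fintype.card_fin, Fintype.card_fin]
    calc (2 ^ (11 * m) + 1) ^ (2 * (4 * r)) * (2 ^ (4 * m) * 2) * 4
        ≤ (2 ^ (11 * m + 1)) ^ (2 * (4 * r)) * (2 ^ (4 * m) * 2) * 4 := by
          apply Nat.mul_le_mul_right
          apply Nat.mul_le_mul_right
          exact Nat.pow_le_pow_left hN1 _
      _ = 2 ^ ((11 * m + 1) * (2 * (4 * r)) + (4 * m + 3)) := by
          rw [← pow_mul, pow_add, pow_add 2 (4 * m) 3]
          ring
      _ ≤ 2 ^ (2 ^ (6 * m)) := by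
          apply Nat.pow_le_pow_right (by norm_num)
          rw [h6]
          calc (11 * m + 1) * (2 * (4 * r)) + (4 * m + 3)
              ≤ (11 * m + 1) * (2 * (4 * r)) + (4 * m + 3) * r := by
                apply Nat.add_le_add_left
                exact Nat.le_mul_of_pos_right _ (by omega)
            _ = r * (92 * m + 11) := by ring
            _ ≤ r * 2 ^ m := Nat.mul_le_mul_left _ hlin
  · rw [Fintype.card_fin, Fintype.card_fin, h10]
    calc (2 ^ (11 * m) + 1) ^ r * 4 ≤ (2 ^ (11 * m + 1)) ^ r * 4 := by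
          apply Nat.mul_le_mul_right
          exact Nat.pow_le_pow_left hN1 _
      _ = 2 ^ ((11 * m + 1) * r + 2) := by
          rw [← pow_mul, pow_add]
          norm_num
      _ ≤ 2 ^ (r * r) := by
          apply Nat.pow_le_pow_right (by norm_num)
          nlinarith
  · rw [Fintype.card_fin]
    have h1 : 2 * m = (2 * m - 1) + 1 := by omega
    calc 2 ^ (4 * m) = (2 ^ (2 * m)) ^ 2 := by ring
      _ = (2 ^ ((2 * m - 1) + 1)) ^ 2 := by rw [← h1]
      _ = 4 * (2 ^ (2 * m - 1)) ^ 2 := by rw [pow_succ]; ring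
  · positivity
  · have h1 : 2 * 2 ^ (2 * m - 1) = 2 ^ (2 * m) := by
      rw [← pow_succ']
      congr 1
      omega
    rw [h1]
    generalize hw : 4 * r = w
    calc (2 ^ (11 * m)) ^ w * (C + 1) ^ (6 * (w + 1)) * 2 ^ w
        = (2 ^ (11 * m)) ^ w * ((C + 1) ^ 6) ^ (w + 1) * 2 ^ w := by rw [← pow_mul (C + 1)]
      _ ≤ (2 ^ (11 * m)) ^ w * (2 ^ (m - 1)) ^ (w + 1) * 2 ^ w := by
          apply Nat.mul_le_mul_right
          apply Nat.mul_le_mul_left
          exact Nat.pow_le_pow_left hC6 _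
      _ = 2 ^ (11 * m * w + (m - 1) * (w + 1) + w) := by
          rw [← pow_mul, ← pow_mul, pow_add, pow_add]
      _ ≤ 2 ^ (2 * m * (6 * (w + 1))) := by
          apply Nat.pow_le_pow_right (by norm_num)
          obtain ⟨t, rfl⟩ : ∃ t, m = t + 1 := ⟨m - 1, by omega⟩
          rw [Nat.add_sub_cancel]
          nlinarith
      _ = (2 ^ (2 * m)) ^ (6 * (w + 1)) := by rw [← pow_mul]
  · rw [Fintype.card_fin, Fintype.card_fin, h10]
    calc (2 ^ (11 * m)) ^ r * 2 ^ (r ^ 2) * 2 ^ (r * r) * 4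
        = 2 ^ (11 * m * r + r ^ 2 + r * r + 2) := by
          rw [← pow_mul, pow_add, pow_add, pow_add]
          norm_num
      _ ≤ 2 ^ (4 * r * (r + 1)) := by
          apply Nat.pow_le_pow_right (by norm_num)
          nlinarith

end Pool.Agent.H76Green
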