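import Pool.Agent.H76Green.Gen

set_option autoImplicit false

namespace Pool.Agent.H76Green

open Finset Module
open scoped Classical

section rep

variable {κ : Type*} (k0 : κ)

/-- The representative of the pair `{x, x + 1}` whose `k0`-coordinate vanishes. -/
noncomputable def rep (x : κ → ZMod 2) : κ → ZMod 2 := if x k0 = 0 then x else x + 1

/-- The odd function attached to `h`. -/
noncomputable def oddExt (h : (κ → ZMod 2) → ZMod 2) (x : κ → ZMod 2) : ZMod 2 :=
  h (rep k0 x) + x k0

theorem one_add_one_fun : (1 : κ → ZMod 2) + 1 = 0 := by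
  funext k; show (1 : ZMod 2) + 1 = 0; decide

theorem rep_add_one (x : κ → ZMod 2) : rep k0 (x + 1) = rep k0 x := by
  unfold rep
  rcases zmod2_cases (x k0) with h | h
  · have h1 : (x + 1) k0 ≠ 0 := by
      show x k0 + 1 ≠ 0
      rw [h]; decide
    rw [if_neg h1, if_pos h, add_assoc, one_add_one_fun, add_zero]
  · have h1 : (x + 1) k0 = 0 := by
      show x k0 + 1 = 0
      rw [h]; decide
    have h2 : x k0 ≠ 0 := by rw [h]; decide
    rw [if_pos h1, if_neg h2]

theorem oddExt_add_one (h : (κ → ZMod 2) → ZMod 2) (x : κ → ZMod 2) :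
    oddExt k0 h (x + 1) = oddExt k0 h x + 1 := by
  unfold oddExt
  rw [rep_add_one]
  show h (rep k0 x) + (x k0 + 1) = _
  ring

theorem add_self_fun {α : Type*} (x : α → ZMod 2) : x + x = 0 := by
  funext a
  show x a + x a = 0
  exact CharTwo.add_self_eq_zero _

theorem rep_eq {x y : κ → ZMod 2} (h : rep k0 x = rep k0 y) : x + y = 0 ∨ x + y = 1 := by
  unfold rep at h
  split_ifs at h
  · left; rw [h]; exact add_self_fun y
  · right
    rw [h]
    calc y + 1 + y = (y + y) + 1 := by ring
      _ = 1 := by rw [add_self_fun, zero_add]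
  · right
    rw [← h]
    calc x + (x + 1) = (x + x) + 1 := by ring
      _ = 1 := by rw [add_self_fun, zero_add]
  · left
    have : x = y := add_right_cancel h
    rw [this]; exact add_self_fun y

end rep

section weight

variable {ι : Type*} [Fintype ι]

/-- Hamming weight. -/
noncomputable def wt (v : ι → ZMod 2) : ℕ := (univ.filter fun b => v b = 1).card

theorem wt_eq_sum (v : ι → ZMod 2) : wt v = ∑ b, if v b = 1 then 1 else 0 := by
  unfold wt
  rw [Finset.card_filter]

variable {κ : Type*} (k0 : κ)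

/-- The vector of bits computed blockwise. -/
noncomputable def vec (φ : ι → (κ → ZMod 2) → ZMod 2) (x : ι → κ → ZMod 2) : ι → ZMod 2 :=
  fun b => oddExt k0 (φ b) (x b)

theorem wt_add_wt (φ : ι → (κ → ZMod 2) → ZMod 2) (x y : ι → κ → ZMod 2) (C : ℕ)
    (hC' : x + y ∈ nearOne C) :
    wt (vec k0 φ x) + wt (vec k0 φ y) ≤ Fintype.card ι + C ∧
      Fintype.card ι ≤ wt (vec k0 φ x) + wt (vec k0 φ y) + C := by
  have hC : (univ.filter fun b => (x + y) b ≠ 1).card ≤ C := hC'
  have hbad : (univ.filter fun b => (x + y) b ≠ 1).card =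
      ∑ b, if (x + y) b ≠ 1 then 1 else 0 := by
    rw [Finset.card_filter]
  have hone : Fintype.card ι = ∑ _b : ι, 1 := by simp
  have hgood : ∀ b, (x + y) b = 1 → vec k0 φ y b = vec k0 φ x b + 1 := by
    intro b hb
    have h1 : y b = x b + 1 := by
      have h2 : x b + y b = 1 := hb
      calc y b = (x b + x b) + y b := by rw [add_self_fun, zero_add]
        _ = x b + (x b + y b) := by ring
        _ = x b + 1 := by rw [h2]
    unfold vec
    rw [h1, oddExt_add_one]
  rw [hbad] at hC
  constructor
  · refine le_trans ?_ (Nat.add_le_add_left hC _)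
    rw [wt_eq_sum, wt_eq_sum, hone, ← sum_add_distrib, ← sum_add_distrib]
    refine sum_le_sum fun b _ => ?_
    by_cases hb : (x + y) b = 1
    · rw [hgood b hb]
      rcases zmod2_cases (vec k0 φ x b) with h | h
      · rw [h]; simp [hb]
      · rw [h]
        have : (1 : ZMod 2) + 1 ≠ 1 := by decide
        simp [hb]
    · simp only [hb, ne_eq, not_false_eq_true, if_true]
      split_ifs <;> omega
  · have h1 : Fintype.card ι ≤ wt (vec k0 φ x) + wt (vec k0 φ y) +
        ∑ b, (if (x + y) b ≠ 1 then 1 else 0) := by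
      rw [wt_eq_sum, wt_eq_sum, hone, ← sum_add_distrib, ← sum_add_distrib]
      refine sum_le_sum fun b _ => ?_
      by_cases hb : (x + y) b = 1
      · rw [hgood b hb]
        rcases zmod2_cases (vec k0 φ x b) with h | h
        · rw [h]; simp
        · rw [h]; simp
      · simp only [hb, ne_eq, not_false_eq_true, if_true]
        omega
    exact h1.trans (Nat.add_le_add_left hC _)

/-- The middle layers. -/
noncomputable def mid (ι : Type*) [Fintype ι] (C : ℕ) : Finset (ι → ZMod 2) :=
  univ.filter fun β => Fintype.card ι ≤ 2 * wt β + C ∧ 2 * wt β ≤ Fintype.card ι + C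

theorem mem_mid {C : ℕ} {β : ι → ZMod 2} :
    β ∈ mid ι C ↔ Fintype.card ι ≤ 2 * wt β + C ∧ 2 * wt β ≤ Fintype.card ι + C := by
  simp [mid]

theorem card_wt_eq (v : ℕ) : (univ.filter fun β : ι → ZMod 2 => wt β = v).card ≤
    (Fintype.card ι).choose v := by
  rw [← Finset.card_univ, ← Finset.card_powersetCard]
  refine Finset.card_le_card_of_injOn (fun β => univ.filter fun b => β b = 1) ?_ ?_
  · intro β hβ
    simp only [coe_filter, mem_univ, true_and] at hβ
    rw [mem_coe, mem_powersetCard]
    exact ⟨subset_univ _, hβ⟩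
  · intro β _ γ _ h
    funext b
    have h1 : (b ∈ univ.filter fun b => β b = 1) ↔ (b ∈ univ.filter fun b => γ b = 1) := by
      simp only at h
      rw [h]
    simp only [mem_filter, mem_univ, true_and] at h1
    rcases zmod2_cases (β b) with h2 | h2 <;> rcases zmod2_cases (γ b) with h3 | h3
    · rw [h2, h3]
    · rw [h2] at h1; exact absurd (h1.2 h3) (by decide)
    · rw [h3] at h1; exact absurd (h1.1 h2) (by decide)
    · rw [h2, h3]

theorem centralBinom_sq (n : ℕ) : n.centralBinom ^ 2 * (3 * n + 1) ≤ 16 ^ n := by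
  induction n with
  | zero => simp
  | succ n ih =>
    have h := Nat.succ_mul_centralBinom_succ n
    have hpos : 0 < (n + 1) ^ 2 := by positivity
    refine le_of_mul_le_mul_left ?_ hpos
    calc (n + 1) ^ 2 * ((n + 1).centralBinom ^ 2 * (3 * (n + 1) + 1))
        = ((n + 1) * (n + 1).centralBinom) ^ 2 * (3 * n + 4) := by ring
      _ = (2 * (2 * n + 1) * n.centralBinom) ^ 2 * (3 * n + 4) := by rw [h]
      _ = n.centralBinom ^ 2 * (4 * ((2 * n + 1) ^ 2 * (3 * n + 4))) := by ring
      _ ≤ n.centralBinom ^ 2 * (4 * (4 * (3 * n + 1) * (n + 1) ^ 2)) := by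
          apply Nat.mul_le_mul_left
          apply Nat.mul_le_mul_left
          nlinarith
      _ = (n.centralBinom ^ 2 * (3 * n + 1)) * (16 * (n + 1) ^ 2) := by ring
      _ ≤ 16 ^ n * (16 * (n + 1) ^ 2) := Nat.mul_le_mul_right _ ih
      _ = (n + 1) ^ 2 * 16 ^ (n + 1) := by ring

theorem card_mid_le (C a : ℕ) (ha : Fintype.card ι = 4 * a ^ 2) :
    (mid ι C).card * (2 * a) ≤ (C + 1) * 2 ^ (Fintype.card ι) := by
  set B := Fintype.card ι with hB
  have hsub : mid ι C ⊆ (Finset.Icc ((B - C + 1) / 2) ((B + C) / 2)).biUnion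
      fun v => univ.filter fun β : ι → ZMod 2 => wt β = v := by
    intro β hβ
    simp only [mid, mem_filter, mem_univ, true_and] at hβ
    simp only [mem_biUnion, mem_filter, mem_univ, true_and, exists_eq_right', mem_Icc]
    omega
  have hcb : (B.choose (B / 2)) * (2 * a) ≤ 2 ^ B := by
    have h1 : B / 2 = 2 * a ^ 2 := by omega
    have h2 : B.choose (B / 2) = (2 * a ^ 2).centralBinom := by
      rw [h1, Nat.centralBinom_eq_two_mul_choose, ha]
      congr 1
      ring
    have h3 := centralBinom_sq (2 * a ^ 2)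
    rw [h2]
    have h4 : ((2 * a ^ 2).centralBinom * (2 * a)) ^ 2 ≤ (2 ^ B) ^ 2 := by
      calc ((2 * a ^ 2).centralBinom * (2 * a)) ^ 2
          = (2 * a ^ 2).centralBinom ^ 2 * (4 * a ^ 2) := by ring
        _ ≤ (2 * a ^ 2).centralBinom ^ 2 * (3 * (2 * a ^ 2) + 1) := by
            apply Nat.mul_le_mul_left
            omega
        _ ≤ 16 ^ (2 * a ^ 2) := h3
        _ = (2 ^ B) ^ 2 := by
            rw [ha, ← pow_mul, show (16 : ℕ) = 2 ^ 4 by norm_num, ← pow_mul]
            congr 1
            ring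
    exact (Nat.pow_le_pow_iff_left (by norm_num)).1 h4
  calc (mid ι C).card * (2 * a)
      ≤ (∑ v ∈ Finset.Icc ((B - C + 1) / 2) ((B + C) / 2),
          (univ.filter fun β : ι → ZMod 2 => wt β = v).card) * (2 * a) :=
        Nat.mul_le_mul_right _ ((card_le_card hsub).trans card_biUnion_le)
    _ ≤ (∑ _v ∈ Finset.Icc ((B - C + 1) / 2) ((B + C) / 2), B.choose (B / 2)) * (2 * a) := by
        apply Nat.mul_le_mul_right
        refine sum_le_sum fun v _ => ?_
        exact (card_wt_eq v).trans (Nat.choose_le_middle v B)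
    _ = (Finset.Icc ((B - C + 1) / 2) ((B + C) / 2)).card * (B.choose (B / 2) * (2 * a)) := by
        rw [sum_const, smul_eq_mul]; ring
    _ ≤ (C + 1) * 2 ^ B := by
        apply Nat.mul_le_mul _ hcb
        rw [Nat.card_Icc]
        omega

end weight

section count

variable {ι κ J : Type*} [Fintype ι] [Fintype κ] [Fintype J] (k0 : κ)

/-- The evaluation homomorphism. -/
noncomputable def evalHom {m : ℕ} (y : Fin m → ι → κ → ZMod 2) :
    (J → ι → (κ → ZMod 2) → ZMod 2) →+ (J → Fin m → ι → ZMod 2) where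
  toFun Φ := fun j k b => Φ j b (rep k0 (y k b))
  map_zero' := rfl
  map_add' := fun _ _ => rfl

omit [Fintype ι] [Fintype J] in
theorem evalHom_surjective {m : ℕ} (y : Fin m → ι → κ → ZMod 2)
    (hy : ∀ k l, k ≠ l → ∀ b, rep k0 (y k b) ≠ rep k0 (y l b)) :
    Function.Surjective (evalHom (J := J) k0 y) := by
  intro η
  refine ⟨fun j b z => if h : ∃ k, rep k0 (y k b) = z then η j h.choose b else 0, ?_⟩
  funext j k b
  show (if h : ∃ l, rep k0 (y l b) = rep k0 (y k b) then η j h.choose b else 0) = η j k b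
  have h : ∃ l, rep k0 (y l b) = rep k0 (y k b) := ⟨k, rfl⟩
  rw [dif_pos h]
  have h1 := h.choose_spec
  have h2 : h.choose = k := by
    by_contra hne
    exact hy _ _ hne b h1
  rw [h2]

theorem card_translate {V : Type*} [AddCommGroup V] [Fintype V] (W : Finset V) (c : V) :
    (univ.filter fun β => β + c ∈ W).card = W.card := by
  refine Finset.card_bij (fun β _ => β + c) ?_ ?_ ?_
  · intro β hβ
    simpa using hβ
  · intro β _ γ _ h
    exact add_right_cancel h
  · intro w hw
    refine ⟨w - c, ?_, ?_⟩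
    · simpa using hw
    · simp

/-- Counting the `Φ` for which all points `y k` lie in the middle layers. -/
theorem card_good_phi {m : ℕ} (C : ℕ) (y : Fin m → ι → κ → ZMod 2)
    (hy : ∀ k l, k ≠ l → ∀ b, rep k0 (y k b) ≠ rep k0 (y l b)) :
    (univ.filter fun Φ : J → ι → (κ → ZMod 2) → ZMod 2 =>
      ∀ k j, vec k0 (Φ j) (y k) ∈ mid ι C).card * (2 ^ Fintype.card ι) ^ (Fintype.card J * m) =
      (mid ι C).card ^ (Fintype.card J * m) *
        Fintype.card (J → ι → (κ → ZMod 2) → ZMod 2) := by
  let c : Fin m → ι → ZMod 2 := fun k b => y k b k0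
  let P : Finset (J → Fin m → ι → ZMod 2) :=
    Fintype.piFinset fun _ => Fintype.piFinset fun k => univ.filter fun β => β + c k ∈ mid ι C
  have h1 := card_preimage (evalHom (J := J) k0 y) (evalHom_surjective k0 y hy) P
  have h2 : (univ.filter fun Φ : J → ι → (κ → ZMod 2) → ZMod 2 =>
      ∀ k j, vec k0 (Φ j) (y k) ∈ mid ι C) =
      univ.filter fun Φ => evalHom (J := J) k0 y Φ ∈ P := by
    ext Φ
    simp only [mem_filter, mem_univ, true_and, P, Fintype.mem_piFinset]
    constructor
    · intro h j k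
      exact h k j
    · intro h k j
      exact h j k
  have h3 : P.card = (mid ι C).card ^ (Fintype.card J * m) := by
    have h5 : P.card = ∏ _j : J, ∏ k : Fin m, (univ.filter fun β => β + c k ∈ mid ι C).card := by
      simp only [P, Fintype.card_piFinset]
    have h6 : ∀ k : Fin m, (univ.filter fun β => β + c k ∈ mid ι C).card = (mid ι C).card :=
      fun k => by convert card_translate (mid ι C) (c k)
    rw [h5]
    simp only [h6, prod_const, card_univ, Fintype.card_fin]
    rw [← pow_mul, mul_comm]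
  have h4 : Fintype.card (J → Fin m → ι → ZMod 2) =
      (2 ^ Fintype.card ι) ^ (Fintype.card J * m) := by
    simp only [Fintype.card_pi, ZMod.card, prod_const, card_univ, Fintype.card_fin]
    rw [← pow_mul, mul_comm]
  rw [h2, ← h4, ← h3]
  convert h1

end count

end Pool.Agent.H76Green
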