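import Pool.Agent.H76Green.Graph

set_option autoImplicit false

namespace Pool.Agent.H76Green

open Finset Module
open scoped Classical

section coeff

variable {N w : ℕ}

/-- Coefficient vector of the `k`-th point of a path. -/
noncomputable def cf (i : Fin w → Fin N) (k : ℕ) : Fin N → ZMod 2 :=
  ∑ l : Fin w, if (l : ℕ) < k then Pi.single (i l) 1 else 0

theorem cf_support (i : Fin w → Fin N) (k : ℕ) (j : Fin N) (hj : cf i k j ≠ 0) :
    j ∈ univ.image i := by
  by_contra hcon
  apply hj
  unfold cf
  rw [Finset.sum_apply]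
  apply Finset.sum_eq_zero
  intro l _
  split_ifs
  · rw [Pi.single_apply, if_neg]
    rintro rfl
    exact hcon (mem_image_of_mem _ (mem_univ _))
  · rfl

variable {G : Type*} [AddCommGroup G] [Module (ZMod 2) G]

theorem pt_eq_cf (T : Fin N → G) (i : Fin w → Fin N) (y : G) (k : ℕ) :
    pt T i y k = y + ∑ j, cf i k j • T j := by
  unfold pt cf
  congr 1
  simp only [Finset.sum_apply, sum_smul]
  rw [Finset.sum_comm]
  refine sum_congr rfl fun l _ => ?_
  split_ifs
  · rw [sum_single_smul]
  · simp

theorem pt_add_pt (T : Fin N → G) (i : Fin w → Fin N) (y : G) (k l : ℕ) :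
    pt T i y k + pt T i y l = ∑ j, (cf i k + cf i l) j • T j := by
  rw [pt_eq_cf, pt_eq_cf]
  simp only [Pi.add_apply, add_smul, sum_add_distrib]
  calc (y + ∑ j, cf i k j • T j) + (y + ∑ j, cf i l j • T j)
      = (y + y) + (∑ j, cf i k j • T j + ∑ j, cf i l j • T j) := by abel
    _ = _ := by rw [add_self_mod, zero_add]

theorem pt_add_pt_not_mem {Z : Finset G} {T : Fin N → G} (hT : Gen (2 * w) Z T)
    (i : Fin w → Fin N) (y : G) (k l : ℕ) (hkl : pt T i y k ≠ pt T i y l) :
    pt T i y k + pt T i y l ∉ Z := by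
  rw [pt_add_pt]
  apply hT
  · intro h0
    apply hkl
    have h1 := pt_add_pt T i y k l
    rw [h0] at h1
    simp only [Pi.zero_apply, zero_smul, sum_const_zero] at h1
    have h2 := add_cancel_mod h1
    rw [add_zero] at h2
    exact h2.symm
  · have hsub : (univ.filter fun j => (cf i k + cf i l) j ≠ 0) ⊆ univ.image i := by
      intro j hj
      simp only [mem_filter, mem_univ, true_and] at hj
      by_cases h1 : cf i k j = 0
      · have h2 : cf i l j ≠ 0 := by
          intro h2
          apply hj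
          rw [Pi.add_apply, h1, h2, add_zero]
        exact cf_support i l j h2
      · exact cf_support i k j h1
    have h1 := (card_le_card hsub).trans card_image_le
    rw [card_univ, Fintype.card_fin] at h1
    omega

end coeff

section roundone

variable {ι κ J : Type*} [Fintype ι] [Fintype κ] [Fintype J] (k0 : κ)

/-- The points with some block equal to `0` or to the all-ones vector. -/
noncomputable def sep (ι κ : Type*) [Fintype ι] [Fintype κ] : Finset (ι → κ → ZMod 2) :=
  univ.filter fun z => ∃ b, z b = 0 ∨ z b = 1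

/-- The remainder after the half-spaces. -/
noncomputable def rem (C : ℕ) (Φ : J → ι → (κ → ZMod 2) → ZMod 2) : Finset (ι → κ → ZMod 2) :=
  univ.filter fun x => ∀ j, vec k0 (Φ j) x ∈ mid ι C

theorem mem_rem {C : ℕ} {Φ : J → ι → (κ → ZMod 2) → ZMod 2} {x : ι → κ → ZMod 2} :
    x ∈ rem k0 C Φ ↔ ∀ j, vec k0 (Φ j) x ∈ mid ι C := by
  simp [rem]

theorem rep_ne_of_not_sep {x y : ι → κ → ZMod 2} (h : x + y ∉ sep ι κ) (b : ι) :
    rep k0 (x b) ≠ rep k0 (y b) := by
  intro hrep
  apply h
  simp only [sep, mem_filter, mem_univ, true_and]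
  exact ⟨b, rep_eq k0 hrep⟩

theorem card_sep_le : (sep ι κ).card * 2 ^ Fintype.card κ ≤
    Fintype.card ι * 2 * Fintype.card (ι → κ → ZMod 2) := by
  have hsub : sep ι κ ⊆ (univ : Finset ι).biUnion fun b =>
      (univ : Finset (Fin 2)).biUnion fun e =>
        univ.filter fun z : ι → κ → ZMod 2 => z b = if e = 0 then 0 else 1 := by
    intro z hz
    simp only [sep, mem_filter, mem_univ, true_and] at hz
    obtain ⟨b, hb⟩ := hz
    simp only [mem_biUnion, mem_filter, mem_univ, true_and]
    rcases hb with hb | hb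
    · exact ⟨b, 0, by simpa using hb⟩
    · exact ⟨b, 1, by simpa using hb⟩
  have hcard : ∀ (b : ι) (c : κ → ZMod 2),
      (univ.filter fun z : ι → κ → ZMod 2 => z b = c).card * 2 ^ Fintype.card κ =
        Fintype.card (ι → κ → ZMod 2) := by
    intro b c
    let f : (ι → κ → ZMod 2) →+ (κ → ZMod 2) := Pi.evalAddMonoidHom _ b
    have hf : Function.Surjective f := fun c => ⟨Function.update 0 b c, by simp [f]⟩
    have h1 := card_preimage f hf {c}
    simp only [mem_singleton, card_singleton, one_mul] at h1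
    have h2 : Fintype.card (κ → ZMod 2) = 2 ^ Fintype.card κ := by
      simp [Fintype.card_pi, ZMod.card]
    rw [h2] at h1
    rw [← h1]
    congr 2
  calc (sep ι κ).card * 2 ^ Fintype.card κ
      ≤ (∑ b : ι, ∑ e : Fin 2, (univ.filter fun z : ι → κ → ZMod 2 =>
          z b = if e = 0 then 0 else 1).card) * 2 ^ Fintype.card κ := by
        apply Nat.mul_le_mul_right
        refine (card_le_card hsub).trans (card_biUnion_le.trans ?_)
        exact sum_le_sum fun b _ => card_biUnion_le
    _ = ∑ b : ι, ∑ e : Fin 2, (univ.filter fun z : ι → κ → ZMod 2 =>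
          z b = if e = 0 then 0 else 1).card * 2 ^ Fintype.card κ := by
        simp only [sum_mul]
    _ = ∑ b : ι, ∑ e : Fin 2, Fintype.card (ι → κ → ZMod 2) := by
        refine sum_congr rfl fun b _ => sum_congr rfl fun e _ => hcard b _
    _ = _ := by
        simp only [sum_const, card_univ, Fintype.card_fin, smul_eq_mul]
        ring

theorem zero_mem_sep [Nonempty ι] : (0 : ι → κ → ZMod 2) ∈ sep ι κ := by
  simp only [sep, mem_filter, mem_univ, true_and]
  exact ⟨Classical.arbitrary ι, Or.inl rfl⟩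

/-- Existence of good odd functions: few starts of long paths. -/
theorem exists_phi {N w : ℕ} (C : ℕ) (T : Fin N → (ι → κ → ZMod 2))
    (hT : Gen (2 * w) (sep ι κ) T) :
    ∃ Φ : J → ι → (κ → ZMod 2) → ZMod 2,
      (univ.filter fun y => LongPath (rem k0 C Φ : Set _) T w y).card *
        (2 ^ Fintype.card ι) ^ (Fintype.card J * (w + 1)) ≤
      Fintype.card (ι → κ → ZMod 2) * (N ^ w * (mid ι C).card ^ (Fintype.card J * (w + 1))) := by
  by_contra hcon
  push Not at hcon
  set M := (2 ^ Fintype.card ι) ^ (Fintype.card J * (w + 1)) with hM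
  set R := (mid ι C).card ^ (Fintype.card J * (w + 1)) with hR
  -- for each start and step sequence
  have h1 : ∀ (y : ι → κ → ZMod 2) (i : Fin w → Fin N),
      (univ.filter fun Φ : J → ι → (κ → ZMod 2) → ZMod 2 =>
        (∀ k l : Fin (w + 1), k ≠ l → pt T i y k ≠ pt T i y l) ∧
          ∀ k : Fin (w + 1), pt T i y k ∈ (rem k0 C Φ : Set _)).card * M ≤
        R * Fintype.card (J → ι → (κ → ZMod 2) → ZMod 2) := by
    intro y i
    by_cases hinj : ∀ k l : Fin (w + 1), k ≠ l → pt T i y k ≠ pt T i y l
    · have h2 := card_good_phi (J := J) k0 C (fun k : Fin (w + 1) => pt T i y k)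
        (fun k l hkl b => rep_ne_of_not_sep k0 (pt_add_pt_not_mem hT i y k l (hinj k l hkl)) b)
      rw [← hM, ← hR] at h2
      rw [← h2]
      apply Nat.mul_le_mul_right
      apply card_le_card
      intro Φ hΦ
      simp only [mem_filter, mem_univ, true_and, rem, coe_filter] at hΦ ⊢
      intro k j
      exact hΦ.2 k j
    · have h2 : (univ.filter fun Φ : J → ι → (κ → ZMod 2) → ZMod 2 =>
        (∀ k l : Fin (w + 1), k ≠ l → pt T i y k ≠ pt T i y l) ∧
          ∀ k : Fin (w + 1), pt T i y k ∈ (rem k0 C Φ : Set _)) = ∅ := by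
        rw [Finset.filter_eq_empty_iff]
        intro Φ _ h
        exact hinj h.1
      rw [h2]
      simp
  -- sum over everything
  have h2 : (∑ Φ : J → ι → (κ → ZMod 2) → ZMod 2,
      (univ.filter fun y => LongPath (rem k0 C Φ : Set _) T w y).card) * M ≤
      Fintype.card (ι → κ → ZMod 2) * (N ^ w * (R *
        Fintype.card (J → ι → (κ → ZMod 2) → ZMod 2))) := by
    have h3 : ∀ Φ : J → ι → (κ → ZMod 2) → ZMod 2,
        (univ.filter fun y => LongPath (rem k0 C Φ : Set _) T w y).card =
        ∑ y, if LongPath (rem k0 C Φ : Set _) T w y then 1 else 0 := by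
      intro Φ
      rw [Finset.card_filter]
    simp only [h3]
    rw [Finset.sum_comm, sum_mul]
    have h4 : ∀ y : ι → κ → ZMod 2,
        (∑ Φ : J → ι → (κ → ZMod 2) → ZMod 2,
          if LongPath (rem k0 C Φ : Set _) T w y then 1 else 0) * M ≤
        N ^ w * (R * Fintype.card (J → ι → (κ → ZMod 2) → ZMod 2)) := by
      intro y
      rw [← Finset.card_filter]
      have hsub : (univ.filter fun Φ : J → ι → (κ → ZMod 2) → ZMod 2 =>
          LongPath (rem k0 C Φ : Set _) T w y) ⊆
          (univ : Finset (Fin w → Fin N)).biUnion fun i =>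
            univ.filter fun Φ : J → ι → (κ → ZMod 2) → ZMod 2 =>
              (∀ k l : Fin (w + 1), k ≠ l → pt T i y k ≠ pt T i y l) ∧
              ∀ k : Fin (w + 1), pt T i y k ∈ (rem k0 C Φ : Set _) := by
        intro Φ hΦ
        simp only [mem_filter, mem_univ, true_and, mem_biUnion] at hΦ ⊢
        exact hΦ
      calc _ ≤ (∑ i : Fin w → Fin N, (univ.filter fun Φ : J → ι → (κ → ZMod 2) → ZMod 2 =>
              (∀ k l : Fin (w + 1), k ≠ l → pt T i y k ≠ pt T i y l) ∧
              ∀ k : Fin (w + 1), pt T i y k ∈ (rem k0 C Φ : Set _)).card) * M :=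
            Nat.mul_le_mul_right _ ((card_le_card hsub).trans card_biUnion_le)
        _ ≤ ∑ i : Fin w → Fin N, R * Fintype.card (J → ι → (κ → ZMod 2) → ZMod 2) := by
            rw [sum_mul]
            exact sum_le_sum fun i _ => h1 y i
        _ = _ := by simp
    refine (sum_le_sum fun y _ => h4 y).trans ?_
    rw [sum_const, card_univ, smul_eq_mul]
  have h3 : ∑ Φ : J → ι → (κ → ZMod 2) → ZMod 2,
      Fintype.card (ι → κ → ZMod 2) * (N ^ w * R) <
      (∑ Φ : J → ι → (κ → ZMod 2) → ZMod 2,
        (univ.filter fun y => LongPath (rem k0 C Φ : Set _) T w y).card) * M := by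
    rw [sum_mul]
    exact sum_lt_sum_of_nonempty ⟨0, mem_univ _⟩ fun Φ _ => hcon Φ
  rw [sum_const, card_univ, smul_eq_mul] at h3
  have h4 := lt_of_lt_of_le h3 h2
  have h5 : Fintype.card (J → ι → (κ → ZMod 2) → ZMod 2) *
      (Fintype.card (ι → κ → ZMod 2) * (N ^ w * R)) =
      Fintype.card (ι → κ → ZMod 2) * (N ^ w * (R *
        Fintype.card (J → ι → (κ → ZMod 2) → ZMod 2))) := by ring
  rw [h5] at h4
  exact lt_irrefl _ h4

end roundone

end Pool.Agent.H76Green
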