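import Pool.Agent.H76Green.RoundOne

set_option autoImplicit false

namespace Pool.Agent.H76Green

open Finset Module
open scoped Classical

section chain

variable {G : Type*} [AddCommGroup G] [Module (ZMod 2) G] {N : ℕ}

/-- Chains: each new direction of the list is attached at a point reached by earlier ones. -/
def Ch (T : Fin N → G) (Y : Set G) (u : G) : List (Fin N) → Prop
  | [] => True
  | i :: D => Ch T Y u D ∧ i ∉ D ∧ ∃ a : Fin N → ZMod 2, (∀ j, a j ≠ 0 → j ∈ D) ∧
      u + ∑ j, a j • T j + T i ∈ Y

theorem ch_tail {T : Fin N → G} {Y : Set G} {u : G} {D : List (Fin N)} (h : Ch T Y u D) :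
    Ch T Y u D.tail := by
  cases D with
  | nil => exact trivial
  | cons i D => exact h.1

theorem ch_drop {T : Fin N → G} {Y : Set G} {u : G} {D : List (Fin N)} (h : Ch T Y u D) (k : ℕ) :
    Ch T Y u (D.drop k) := by
  induction k with
  | zero => simpa using h
  | succ k ih =>
    rw [← List.tail_drop]
    exact ch_tail ih

theorem walk_chain {Y : Set G} {T : Fin N → G} {v u : G} (p : (gr Y T).Walk v u) :
    ∃ D : List (Fin N), Ch T Y u D ∧ ∃ a : Fin N → ZMod 2, (∀ j, a j ≠ 0 → j ∈ D) ∧
      v = u + ∑ j, a j • T j ∧ ∑ j, a j = (p.length : ZMod 2) := by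
  induction p with
  | nil => exact ⟨[], trivial, 0, by simp, by simp, by simp⟩
  | @cons v v' u h p ih =>
    obtain ⟨D, hD, a, ha1, ha2, ha3⟩ := ih
    obtain ⟨i, hi⟩ := h.2.2.2
    have hv : v = u + ∑ j, a j • T j + T i := by
      rw [← ha2]
      have h1 : v' + v = T i := by rw [add_comm]; exact hi
      exact add_cancel_mod h1
    have hv' : v = u + ∑ j, (Pi.single i (1 : ZMod 2) + a : Fin N → ZMod 2) j • T j := by
      simp only [Pi.add_apply, add_smul, sum_add_distrib]
      rw [sum_single_smul, hv]
      abel
    have hsum : ∑ j, (Pi.single i (1 : ZMod 2) + a : Fin N → ZMod 2) j =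
        ((SimpleGraph.Walk.cons h p).length : ZMod 2) := by
      rw [SimpleGraph.Walk.length_cons]
      simp only [Pi.add_apply, sum_add_distrib]
      rw [ha3, Finset.sum_pi_single']
      simp [add_comm]
    have hsupp : ∀ j, (Pi.single i (1 : ZMod 2) + a : Fin N → ZMod 2) j ≠ 0 → j = i ∨ j ∈ D := by
      intro j hj
      by_cases hji : j = i
      · left; exact hji
      · right
        apply ha1
        intro h0
        apply hj
        simp [hji, h0]
    by_cases hiD : i ∈ D
    · refine ⟨D, hD, Pi.single i 1 + a, ?_, hv', hsum⟩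
      intro j hj
      rcases hsupp j hj with rfl | h1
      · exact hiD
      · exact h1
    · refine ⟨i :: D, ⟨hD, hiD, a, ha1, ?_⟩, Pi.single i 1 + a, ?_, hv', hsum⟩
      · rw [← hv]; exact h.2.1
      · intro j hj
        rcases hsupp j hj with rfl | h1
        · simp
        · simp [h1]

/-- Two-colourability in the second round. -/
theorem colorable_round_two {Y : Set G} {T : Fin N → G} {Z : Finset G} {r : ℕ}
    (hZ : (0 : G) ∈ Z) (hT : Gen r Z T)
    (hY : ∀ u ∈ Y, ∀ D : List (Fin N), D.length = r → ¬ Ch T Y u D) :
    (gr Y T).Colorable 2 := by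
  rw [SimpleGraph.two_colorable_iff_forall_loop_even]
  intro u p
  by_contra hodd
  rw [Nat.not_even_iff_odd] at hodd
  have hu : u ∈ Y := by
    have hpos : 0 < p.length := hodd.pos
    have h1 := p.adj_getVert_succ (i := 0) hpos
    rw [SimpleGraph.Walk.getVert_zero] at h1
    exact h1.2.1
  obtain ⟨D, hD, a, ha1, ha2, ha3⟩ := walk_chain p
  have hlen : D.length < r := by
    by_contra hlt
    push Not at hlt
    refine hY u hu (D.drop (D.length - r)) ?_ (ch_drop hD _)
    rw [List.length_drop]
    omega
  have ha0 : a ≠ 0 := by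
    rintro rfl
    simp only [Pi.zero_apply, sum_const_zero] at ha3
    have h1 : (p.length : ZMod 2) = 1 := by
      obtain ⟨m, hm⟩ := hodd
      rw [hm]
      push_cast
      rw [show (2 : ZMod 2) = 0 by decide]
      ring
    rw [h1] at ha3
    exact absurd ha3 (by decide)
  refine hT a ha0 ?_ ?_
  · have hsub : (univ.filter fun j => a j ≠ 0) ⊆ D.toFinset := by
      intro j hj
      simp only [mem_filter, mem_univ, true_and] at hj
      rw [List.mem_toFinset]
      exact ha1 j hj
    exact (card_le_card hsub).trans ((List.toFinset_card_le D).trans hlen.le)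
  · have h1 : ∑ j, a j • T j = 0 := by
      have h2 : u + ∑ j, a j • T j = u := ha2.symm
      simpa using h2
    rw [h1]
    exact hZ

theorem ch_congr {T S : Fin N → G} {Y : Set G} {u : G} {D : List (Fin N)}
    (h : ∀ j ∈ D, T j = S j) (hT : Ch T Y u D) : Ch S Y u D := by
  induction D with
  | nil => trivial
  | cons i D ih =>
    obtain ⟨h1, h2, a, h3, h4⟩ := hT
    refine ⟨ih (fun j hj => h j (by simp [hj])) h1, h2, a, h3, ?_⟩
    rw [← h i (by simp)]
    have h5 : ∑ j, a j • S j = ∑ j, a j • T j := by
      refine sum_congr rfl fun j _ => ?_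
      by_cases h6 : a j = 0
      · rw [h6, zero_smul, zero_smul]
      · rw [h j (by simp [h3 j h6])]
    rw [h5]
    exact h4

theorem card_supported (D : List (Fin N)) :
    (univ.filter fun a : Fin N → ZMod 2 => ∀ j, a j ≠ 0 → j ∈ D).card ≤ 2 ^ D.length := by
  have h1 : (univ.filter fun a : Fin N → ZMod 2 => ∀ j, a j ≠ 0 → j ∈ D).card ≤
      (D.toFinset.powerset).card := by
    refine Finset.card_le_card_of_injOn (fun a => univ.filter fun j => a j ≠ 0) ?_ ?_
    · intro a ha
      simp only [coe_filter, mem_univ, true_and] at ha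
      rw [mem_coe, mem_powerset]
      intro j hj
      simp only [mem_filter, mem_univ, true_and] at hj
      rw [List.mem_toFinset]
      exact ha j hj
    · intro a _ b _ h
      funext j
      have h1 : (j ∈ univ.filter fun j => a j ≠ 0) ↔ (j ∈ univ.filter fun j => b j ≠ 0) := by
        simp only at h
        rw [h]
      simp only [mem_filter, mem_univ, true_and] at h1
      rcases zmod2_cases (a j) with h2 | h2 <;> rcases zmod2_cases (b j) with h3 | h3
      · rw [h2, h3]
      · rw [h2, h3] at h1; exact absurd (h1.2 (by decide)) (by decide)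
      · rw [h2, h3] at h1; exact absurd (h1.1 (by decide)) (by decide)
      · rw [h2, h3]
  refine h1.trans ?_
  rw [card_powerset]
  exact Nat.pow_le_pow_right (by norm_num) (List.toFinset_card_le D)

variable [Fintype G]

theorem card_ch_step (Y : Finset G) (u : G) (i : Fin N) (D : List (Fin N)) :
    (univ.filter fun T : Fin N → G => Ch T (Y : Set G) u (i :: D)).card * Fintype.card G ≤
      2 ^ D.length * (Y.card * (univ.filter fun T : Fin N → G => Ch T (Y : Set G) u D).card) := by
  by_cases hiD : i ∈ D
  · have h1 : (univ.filter fun T : Fin N → G => Ch T (Y : Set G) u (i :: D)) = ∅ := by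
      rw [Finset.filter_eq_empty_iff]
      intro T _ h
      exact h.2.1 hiD
    rw [h1]
    simp
  set A := univ.filter fun a : Fin N → ZMod 2 => ∀ j, a j ≠ 0 → j ∈ D with hA
  have hsub : (univ.filter fun T : Fin N → G => Ch T (Y : Set G) u (i :: D)) ⊆
      A.biUnion fun a => univ.filter fun T : Fin N → G =>
        Ch T (Y : Set G) u D ∧ u + ∑ j, a j • T j + T i ∈ Y := by
    intro T hT
    simp only [mem_filter, mem_univ, true_and] at hT
    obtain ⟨h1, _, a, h3, h4⟩ := hT
    simp only [mem_biUnion, hA, mem_filter, mem_univ, true_and]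
    exact ⟨a, h3, h1, h4⟩
  have hstep : ∀ a ∈ A, (univ.filter fun T : Fin N → G =>
      Ch T (Y : Set G) u D ∧ u + ∑ j, a j • T j + T i ∈ Y).card * Fintype.card G ≤
      Y.card * (univ.filter fun T : Fin N → G => Ch T (Y : Set G) u D).card := by
    intro a ha
    simp only [hA, mem_filter, mem_univ, true_and] at ha
    have hai : a i = 0 := by
      by_contra h0
      exact hiD (ha i h0)
    rw [← Finset.card_univ, ← Finset.card_product, ← Finset.card_product]
    refine Finset.card_le_card_of_injOn
      (fun q => (u + ∑ j, a j • q.1 j + q.1 i, Function.update q.1 i q.2)) ?_ ?_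
    · rintro ⟨T, g⟩ hq
      simp only [coe_product, coe_filter, mem_univ, true_and, Set.mem_prod] at hq
      obtain ⟨⟨h1, h2⟩, _⟩ := hq
      simp only [coe_product, coe_filter, mem_univ, true_and, Set.mem_prod]
      refine ⟨h2, ?_⟩
      refine ch_congr ?_ h1
      intro j hj
      have hji : j ≠ i := by
        rintro rfl
        exact hiD hj
      rw [Function.update_of_ne hji]
    · rintro ⟨T, g⟩ _ ⟨S, g'⟩ _ h
      simp only [Prod.mk.injEq] at h
      obtain ⟨h1, h2⟩ := h
      have hg : g = g' := by
        have := congrFun h2 i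
        simpa using this
      have hTS : ∀ j, j ≠ i → T j = S j := by
        intro j hj
        have := congrFun h2 j
        rwa [Function.update_of_ne hj, Function.update_of_ne hj] at this
      have hsum : ∑ j, a j • T j = ∑ j, a j • S j := by
        refine sum_congr rfl fun j _ => ?_
        by_cases hj : j = i
        · rw [hj, hai, zero_smul, zero_smul]
        · rw [hTS j hj]
      rw [hsum] at h1
      have hi : T i = S i := add_left_cancel h1
      have hT : T = S := by
        funext j
        by_cases hj : j = i
        · rw [hj]; exact hi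
        · exact hTS j hj
      rw [hT, hg]
  calc _ ≤ (∑ a ∈ A, (univ.filter fun T : Fin N → G =>
        Ch T (Y : Set G) u D ∧ u + ∑ j, a j • T j + T i ∈ Y).card) * Fintype.card G :=
        Nat.mul_le_mul_right _ ((card_le_card hsub).trans card_biUnion_le)
    _ ≤ ∑ a ∈ A, Y.card * (univ.filter fun T : Fin N → G => Ch T (Y : Set G) u D).card := by
        rw [sum_mul]
        exact sum_le_sum hstep
    _ = A.card * (Y.card * (univ.filter fun T : Fin N → G => Ch T (Y : Set G) u D).card) := by
        rw [sum_const, smul_eq_mul]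
    _ ≤ _ := Nat.mul_le_mul_right _ (card_supported D)

theorem card_ch (Y : Finset G) (u : G) (D : List (Fin N)) :
    (univ.filter fun T : Fin N → G => Ch T (Y : Set G) u D).card * Fintype.card G ^ D.length ≤
      2 ^ (D.length ^ 2) * (Y.card ^ D.length * Fintype.card G ^ N) := by
  induction D with
  | nil =>
    simp only [List.length_nil, pow_zero, mul_one]
    refine (card_filter_le _ _).trans ?_
    simp
  | cons i D ih =>
    have h1 := card_ch_step Y u i D
    rw [List.length_cons]
    calc (univ.filter fun T : Fin N → G => Ch T (Y : Set G) u (i :: D)).card *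
          Fintype.card G ^ (D.length + 1)
        = ((univ.filter fun T : Fin N → G => Ch T (Y : Set G) u (i :: D)).card *
          Fintype.card G) * Fintype.card G ^ D.length := by ring
      _ ≤ (2 ^ D.length * (Y.card * (univ.filter fun T : Fin N → G =>
            Ch T (Y : Set G) u D).card)) * Fintype.card G ^ D.length :=
          Nat.mul_le_mul_right _ h1
      _ = 2 ^ D.length * Y.card * ((univ.filter fun T : Fin N → G =>
            Ch T (Y : Set G) u D).card * Fintype.card G ^ D.length) := by ring
      _ ≤ 2 ^ D.length * Y.card *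
            (2 ^ (D.length ^ 2) * (Y.card ^ D.length * Fintype.card G ^ N)) :=
          Nat.mul_le_mul_left _ ih
      _ = 2 ^ (D.length + D.length ^ 2) * (Y.card ^ (D.length + 1) * Fintype.card G ^ N) := by
          ring
      _ ≤ _ := by
          apply Nat.mul_le_mul_right
          apply Nat.pow_le_pow_right (by norm_num)
          nlinarith

/-- Few tuples have a chain of length `r` in the sparse set `Y`. -/
theorem card_chain (Y : Finset G) (r : ℕ) :
    (univ.filter fun T : Fin N → G => ∃ u ∈ Y, ∃ D : List (Fin N), D.length = r ∧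
      Ch T (Y : Set G) u D).card * Fintype.card G ^ r ≤
      Y.card * (N ^ r * (2 ^ (r ^ 2) * (Y.card ^ r * Fintype.card G ^ N))) := by
  have hsub : (univ.filter fun T : Fin N → G => ∃ u ∈ Y, ∃ D : List (Fin N), D.length = r ∧
      Ch T (Y : Set G) u D) ⊆ Y.biUnion fun u => (univ : Finset (Fin r → Fin N)).biUnion fun d =>
        univ.filter fun T : Fin N → G => Ch T (Y : Set G) u (List.ofFn d) := by
    intro T hT
    simp only [mem_filter, mem_univ, true_and] at hT
    obtain ⟨u, hu, D, hD, hch⟩ := hT
    simp only [mem_biUnion, mem_filter, mem_univ, true_and]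
    subst hD
    refine ⟨u, hu, D.get, ?_⟩
    rw [List.ofFn_get]
    exact hch
  calc _ ≤ (∑ u ∈ Y, ∑ d : Fin r → Fin N, (univ.filter fun T : Fin N → G =>
          Ch T (Y : Set G) u (List.ofFn d)).card) * Fintype.card G ^ r := by
        apply Nat.mul_le_mul_right
        refine (card_le_card hsub).trans (card_biUnion_le.trans ?_)
        exact sum_le_sum fun u _ => card_biUnion_le
    _ = ∑ u ∈ Y, ∑ d : Fin r → Fin N, (univ.filter fun T : Fin N → G =>
          Ch T (Y : Set G) u (List.ofFn d)).card * Fintype.card G ^ r := by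
        simp only [sum_mul]
    _ ≤ ∑ u ∈ Y, ∑ d : Fin r → Fin N, 2 ^ (r ^ 2) * (Y.card ^ r * Fintype.card G ^ N) := by
        refine sum_le_sum fun u _ => sum_le_sum fun d _ => ?_
        have := card_ch Y u (List.ofFn d)
        rwa [List.length_ofFn] at this
    _ = _ := by
        simp only [sum_const, card_univ, smul_eq_mul, Fintype.card_fun, Fintype.card_fin]

end chain

end Pool.Agent.H76Green
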